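import Mathlib

set_option autoImplicit false

/-! Random shifts of the primes: the probability that an interval contains no shifted prime. -/

open MeasureTheory ProbabilityTheory Filter Finset

namespace Pool.Agent.Helper767_SH

variable {Ω : Type*} [MeasurableSpace Ω] {μ : Measure Ω} [IsProbabilityMeasure μ]
  {X : ℕ → Ω → ℕ} {L : ℕ → ℕ}

/-- `X n` is uniformly distributed on `{0, ..., L n}`. -/
def Unif (μ : Measure Ω) (X : ℕ → Ω → ℕ) (L : ℕ → ℕ) : Prop :=
  ∀ n k : ℕ, k ≤ L n → μ.real {ω | X n ω = k} = 1 / ((L n : ℝ) + 1)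

/-- the event that no shifted prime is in `I` -/
def Emp (X : ℕ → Ω → ℕ) (I : Finset ℕ) : Set Ω := {ω | ∀ p : ℕ, p.Prime → p + X p ω ∉ I}

/-- the number of the shifts which move `p` into `I` -/
def cnt (L : ℕ → ℕ) (I : Finset ℕ) (p : ℕ) : ℕ := ((range (L p + 1)).filter (fun k => p + k ∈ I)).card

theorem cnt_le (I : Finset ℕ) (p : ℕ) : cnt L I p ≤ L p + 1 := by
  unfold cnt
  exact (card_filter_le _ _).trans (by simp)

theorem cnt_le_card (I : Finset ℕ) (p : ℕ) : cnt L I p ≤ I.card := by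
  unfold cnt
  apply card_le_card_of_injOn (fun k => p + k)
  · intro k hk
    simpa using (mem_filter.mp hk).2
  · intro a _ b _ h
    simpa using h

theorem real_ge (hX : ∀ n, Measurable (X n)) (hu : Unif μ X L) (n : ℕ) (B : Set ℕ)
    (s : Finset ℕ) (hs : s ⊆ range (L n + 1)) (hsB : ∀ k ∈ s, k ∈ B) :
    (s.card : ℝ) / ((L n : ℝ) + 1) ≤ μ.real (X n ⁻¹' B) := by
  have h1 : (⋃ k ∈ s, {ω | X n ω = k}) ⊆ X n ⁻¹' B := by
    intro ω hω
    simp only [Set.mem_iUnion, Set.mem_ofPred_eq] at hω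
    obtain ⟨k, hk, h⟩ := hω
    simp only [Set.mem_preimage]
    rw [h]
    exact hsB k hk
  have h2 : μ.real (⋃ k ∈ s, {ω | X n ω = k}) = ∑ k ∈ s, μ.real {ω | X n ω = k} := by
    apply measureReal_biUnion_finset
    · intro a _ b _ hab
      apply Set.disjoint_left.mpr
      intro ω h1 h2
      exact hab (h1.symm.trans h2)
    · intro k _
      exact hX n (measurableSet_singleton k)
    · exact fun _ _ => measure_ne_top _ _
  have h3 : ∑ k ∈ s, μ.real {ω | X n ω = k} = (s.card : ℝ) / ((L n : ℝ) + 1) := by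
    rw [sum_congr rfl (fun k hk => hu n k (by have := mem_range.mp (hs hk); omega)), sum_const,
      nsmul_eq_mul, mul_one_div]
  rw [← h3, ← h2]
  exact measureReal_mono h1

theorem real_eq (hX : ∀ n, Measurable (X n)) (hu : Unif μ X L) (n : ℕ) (I : Finset ℕ) :
    μ.real (X n ⁻¹' {k | n + k ∉ I}) = 1 - (cnt L I n : ℝ) / ((L n : ℝ) + 1) := by
  have hpos : (0 : ℝ) < (L n : ℝ) + 1 := by positivity
  have h1 := real_ge hX hu n {k | n + k ∉ I} ((range (L n + 1)).filter (fun k => n + k ∉ I))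
    (filter_subset _ _) (fun k hk => (mem_filter.mp hk).2)
  have h2 := real_ge hX hu n {k | n + k ∈ I} ((range (L n + 1)).filter (fun k => n + k ∈ I))
    (filter_subset _ _) (fun k hk => (mem_filter.mp hk).2)
  have h3 : μ.real (X n ⁻¹' {k | n + k ∉ I}) + μ.real (X n ⁻¹' {k | n + k ∈ I}) = 1 := by
    have e : X n ⁻¹' {k | n + k ∉ I} = (X n ⁻¹' {k | n + k ∈ I})ᶜ := by
      ext ω; simp
    rw [e, probReal_compl_eq_one_sub (hX n (by measurability))]
    ring
  have h4 : (((range (L n + 1)).filter (fun k => n + k ∉ I)).card : ℝ) + (cnt L I n : ℝ) = (L n : ℝ) + 1 := by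
    unfold cnt
    rw [add_comm]
    have := card_filter_add_card_filter_not (s := range (L n + 1)) (p := fun k => n + k ∈ I)
    rw [card_range] at this
    exact_mod_cast this
  have h5 : (((range (L n + 1)).filter (fun k => n + k ∉ I)).card : ℝ) / ((L n : ℝ) + 1) =
      1 - (cnt L I n : ℝ) / ((L n : ℝ) + 1) := by
    rw [eq_sub_iff_add_eq, ← add_div, h4, div_self hpos.ne']
  have h6 : (cnt L I n : ℝ) / ((L n : ℝ) + 1) ≤ μ.real (X n ⁻¹' {k | n + k ∈ I}) := h2
  rw [h5] at h1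
  linarith

/-- the primes up to `b` -/
def P (b : ℕ) : Finset ℕ := (Icc 1 b).filter Nat.Prime

omit [MeasurableSpace Ω] in
theorem emp_eq (I : Finset ℕ) (b : ℕ) (hb : ∀ i ∈ I, i ≤ b) :
    Emp X I = ⋂ p ∈ P b, X p ⁻¹' {k | p + k ∉ I} := by
  ext ω
  simp only [Emp, Set.mem_ofPred_eq, Set.mem_iInter, Set.mem_preimage]
  constructor
  · intro h p hp
    exact h p (mem_filter.mp hp).2
  · intro h p hp hI
    have := hb _ hI
    exact h p (mem_filter.mpr ⟨mem_Icc.mpr ⟨hp.one_lt.le, by omega⟩, hp⟩) hI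

theorem prob_emp (hX : ∀ n, Measurable (X n)) (hi : iIndepFun X μ) (hu : Unif μ X L)
    (I : Finset ℕ) (b : ℕ) (hb : ∀ i ∈ I, i ≤ b) :
    μ.real (Emp X I) = ∏ p ∈ P b, (1 - (cnt L I p : ℝ) / ((L p : ℝ) + 1)) := by
  rw [emp_eq I b hb, measureReal_def, hi.measure_inter_preimage_eq_mul _ (fun p _ => by measurability),
    ENNReal.toReal_prod]
  apply prod_congr rfl
  intro p _
  exact real_eq hX hu p I

theorem meas_emp (hX : ∀ n, Measurable (X n)) (I : Finset ℕ) : MeasurableSet (Emp X I) := by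
  obtain ⟨b, hb⟩ : ∃ b, ∀ i ∈ I, i ≤ b := ⟨I.sup id, fun i hi => le_sup (f := id) hi⟩
  rw [emp_eq I b hb]
  exact Finset.measurableSet_biInter _ (fun p _ => hX p (by measurability))

theorem fac_nonneg (I : Finset ℕ) (p : ℕ) : 0 ≤ 1 - (cnt L I p : ℝ) / ((L p : ℝ) + 1) := by
  have : (cnt L I p : ℝ) ≤ (L p : ℝ) + 1 := by exact_mod_cast cnt_le (L := L) I p
  rw [sub_nonneg, div_le_one (by positivity)]
  exact this

theorem fac_le_one (I : Finset ℕ) (p : ℕ) : 1 - (cnt L I p : ℝ) / ((L p : ℝ) + 1) ≤ 1 := by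
  have : (0 : ℝ) ≤ (cnt L I p : ℝ) / ((L p : ℝ) + 1) := by positivity
  linarith

/-- upper bound for the probability -/
theorem emp_le (hX : ∀ n, Measurable (X n)) (hi : iIndepFun X μ) (hu : Unif μ X L)
    (I : Finset ℕ) (b : ℕ) (hb : ∀ i ∈ I, i ≤ b) (T : Finset ℕ) (hT : T ⊆ P b) (t : ℝ)
    (ht : ∀ p ∈ T, t ≤ (cnt L I p : ℝ) / ((L p : ℝ) + 1)) :
    μ.real (Emp X I) ≤ Real.exp (-(T.card * t)) := by
  rw [prob_emp hX hi hu I b hb]
  calc ∏ p ∈ P b, (1 - (cnt L I p : ℝ) / ((L p : ℝ) + 1))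
      ≤ ∏ p ∈ T, (1 - (cnt L I p : ℝ) / ((L p : ℝ) + 1)) := by
        rw [← prod_sdiff hT]
        have h1 : ∏ p ∈ P b \ T, (1 - (cnt L I p : ℝ) / ((L p : ℝ) + 1)) ≤ 1 :=
          prod_le_one (fun p _ => fac_nonneg I p) (fun p _ => fac_le_one I p)
        have h2 : 0 ≤ ∏ p ∈ T, (1 - (cnt L I p : ℝ) / ((L p : ℝ) + 1)) :=
          prod_nonneg (fun p _ => fac_nonneg I p)
        nlinarith
    _ ≤ ∏ p ∈ T, Real.exp (-t) := by
        apply prod_le_prod (fun p _ => fac_nonneg I p)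
        intro p hp
        have h1 := ht p hp
        have h2 := Real.add_one_le_exp (-t)
        linarith
    _ = Real.exp (-(T.card * t)) := by
        rw [prod_const, ← Real.exp_nat_mul]
        congr 1
        ring

/-- lower bound for the probability -/
theorem le_emp (hX : ∀ n, Measurable (X n)) (hi : iIndepFun X μ) (hu : Unif μ X L)
    (I : Finset ℕ) (b : ℕ) (hb : ∀ i ∈ I, i ≤ b) (T : Finset ℕ) (hT : T ⊆ P b) (t : ℝ) (ht0 : 0 ≤ t) (ht1 : t < 1)
    (ht : ∀ p ∈ T, (cnt L I p : ℝ) / ((L p : ℝ) + 1) ≤ t)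
    (hc : ∀ p ∈ P b, p ∉ T → cnt L I p = 0) :
    Real.exp (-(T.card * (t / (1 - t)))) ≤ μ.real (Emp X I) := by
  rw [prob_emp hX hi hu I b hb, ← prod_sdiff hT]
  have h1 : ∏ p ∈ P b \ T, (1 - (cnt L I p : ℝ) / ((L p : ℝ) + 1)) = 1 := by
    apply prod_eq_one
    intro p hp
    rw [Finset.mem_sdiff] at hp
    rw [hc p hp.1 hp.2]
    simp
  rw [h1, one_mul]
  have e1 : Real.exp (-(T.card * (t / (1 - t)))) = ∏ p ∈ T, Real.exp (-(t / (1 - t))) := by
    rw [prod_const, ← Real.exp_nat_mul]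
    congr 1
    ring
  rw [e1]
  apply prod_le_prod (fun p _ => (Real.exp_pos _).le)
  intro p hp
  have h2 := ht p hp
  have h3 : Real.exp (-(t / (1 - t))) ≤ 1 - t := by
    have h4 : 0 < 1 - t := by linarith
    rw [Real.exp_neg, inv_le_comm₀ (Real.exp_pos _) h4]
    have h5 := Real.add_one_le_exp (t / (1 - t))
    have h6 : t / (1 - t) + 1 = (1 - t)⁻¹ := by field_simp; ring
    linarith
  linarith

/-- disjoint intervals are negatively correlated -/
theorem emp_pair (hX : ∀ n, Measurable (X n)) (hi : iIndepFun X μ) (hu : Unif μ X L)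
    (I J : Finset ℕ) (hIJ : Disjoint I J) :
    μ.real (Emp X I ∩ Emp X J) ≤ μ.real (Emp X I) * μ.real (Emp X J) := by
  classical
  obtain ⟨b, hb⟩ : ∃ b, ∀ i ∈ I ∪ J, i ≤ b := ⟨(I ∪ J).sup id, fun i hi => le_sup (f := id) hi⟩
  have e : Emp X I ∩ Emp X J = Emp X (I ∪ J) := by
    ext ω
    simp only [Emp, Set.mem_inter_iff, Set.mem_ofPred_eq, mem_union, not_or]
    constructor
    · rintro ⟨h1, h2⟩ p hp
      exact ⟨h1 p hp, h2 p hp⟩
    · intro h
      exact ⟨fun p hp => (h p hp).1, fun p hp => (h p hp).2⟩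
  have hc : ∀ p, (cnt L (I ∪ J) p : ℝ) = cnt L I p + cnt L J p := by
    intro p
    unfold cnt
    rw [← Nat.cast_add, ← card_union_of_disjoint]
    · congr 2
      ext k
      simp only [mem_filter, mem_union, mem_range]
      tauto
    · rw [Finset.disjoint_left]
      intro k hk hk'
      exact Finset.disjoint_left.mp hIJ (mem_filter.mp hk).2 (mem_filter.mp hk').2
  rw [e, prob_emp hX hi hu (I ∪ J) b hb, prob_emp hX hi hu I b (fun i hi => hb i (mem_union_left _ hi)),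
    prob_emp hX hi hu J b (fun i hi => hb i (mem_union_right _ hi)), ← prod_mul_distrib]
  apply prod_le_prod (fun p _ => fac_nonneg _ p)
  intro p _
  rw [hc]
  have h1 : (0 : ℝ) ≤ (cnt L I p : ℝ) / ((L p : ℝ) + 1) := by positivity
  have h2 : (0 : ℝ) ≤ (cnt L J p : ℝ) / ((L p : ℝ) + 1) := by positivity
  rw [add_div]
  nlinarith [mul_nonneg h1 h2]

end Pool.Agent.Helper767_SH
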