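import Mathlib

set_option autoImplicit false

/-! The second moment method for negatively correlated events. -/

open MeasureTheory ProbabilityTheory Filter Finset

namespace Pool.Agent.Helper767_SH

variable {Ω : Type*} [MeasurableSpace Ω] {μ : Measure Ω} [IsProbabilityMeasure μ]

theorem second (E : ℕ → Set Ω) (hE : ∀ j, MeasurableSet (E j)) (J : ℕ)
    (hn : ∀ i < J, ∀ j < J, i ≠ j → μ.real (E i ∩ E j) ≤ μ.real (E i) * μ.real (E j))
    (m : ℝ) (hm : 0 < m) (hJ : 0 < J) (hlow : ∀ j < J, m ≤ μ.real (E j)) :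
    μ.real {ω | ∀ j < J, ω ∉ E j} ≤ 1 / (J * m) := by
  classical
  set S : ℝ := ∑ j ∈ range J, μ.real (E j) with hS
  have hSlow : J * m ≤ S := by
    have : ∑ j ∈ range J, m ≤ S := sum_le_sum (fun j hj => hlow j (mem_range.mp hj))
    simpa using this
  have hJm : 0 < (J : ℝ) * m := by positivity
  have hS0 : 0 < S := lt_of_lt_of_le hJm hSlow
  let f : ℕ → Ω → ℝ := fun j => (E j).indicator (fun _ => (1 : ℝ))
  let g : ℕ → ℕ → Ω → ℝ := fun i j => (E i ∩ E j).indicator (fun _ => (1 : ℝ))
  have hfi : ∀ j, Integrable (f j) μ := fun j => (integrable_const _).indicator (hE j)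
  have hgi : ∀ i j, Integrable (g i j) μ := fun i j => (integrable_const _).indicator ((hE i).inter (hE j))
  have hfint : ∀ j, ∫ ω, f j ω ∂μ = μ.real (E j) := by
    intro j
    have := integral_indicator_one (μ := μ) (hE j)
    exact this
  have hgint : ∀ i j, ∫ ω, g i j ω ∂μ = μ.real (E i ∩ E j) := by
    intro i j
    have := integral_indicator_one (μ := μ) ((hE i).inter (hE j))
    exact this
  have hfg : ∀ i j ω, f i ω * f j ω = g i j ω := by
    intro i j ω
    simp only [f, g, Set.indicator_apply, Set.mem_inter_iff]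
    by_cases h1 : ω ∈ E i <;> by_cases h2 : ω ∈ E j <;> simp [h1, h2]
  have hsq : ∀ ω, (∑ j ∈ range J, f j ω - S) ^ 2 =
      (∑ i ∈ range J, ∑ j ∈ range J, g i j ω) - 2 * S * (∑ j ∈ range J, f j ω) + S ^ 2 := by
    intro ω
    have : (∑ j ∈ range J, f j ω) * (∑ j ∈ range J, f j ω) = ∑ i ∈ range J, ∑ j ∈ range J, g i j ω := by
      rw [sum_mul_sum]
      exact sum_congr rfl (fun i _ => sum_congr rfl (fun j _ => hfg i j ω))
    rw [← this]
    ring
  have hGi : Integrable (fun ω => ∑ i ∈ range J, ∑ j ∈ range J, g i j ω) μ :=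
    integrable_finsetSum _ (fun i _ => integrable_finsetSum _ (fun j _ => hgi i j))
  have hFi : Integrable (fun ω => ∑ j ∈ range J, f j ω) μ :=
    integrable_finsetSum _ (fun j _ => hfi j)
  have hI : ∫ ω, (∑ j ∈ range J, f j ω - S) ^ 2 ∂μ =
      (∑ i ∈ range J, ∑ j ∈ range J, μ.real (E i ∩ E j)) - S ^ 2 := by
    simp_rw [hsq]
    have hA : Integrable (fun ω => (∑ i ∈ range J, ∑ j ∈ range J, g i j ω) -
        2 * S * (∑ j ∈ range J, f j ω)) μ := hGi.sub (hFi.const_mul _)
    have hB : Integrable (fun ω => 2 * S * (∑ j ∈ range J, f j ω)) μ := hFi.const_mul _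
    rw [integral_add hA (integrable_const _),
      integral_sub hGi hB, integral_const_mul, integral_finsetSum _ (fun j _ => hfi j),
      integral_finsetSum _ (fun i _ => integrable_finsetSum _ (fun j _ => hgi i j))]
    have h1 : ∀ i, ∫ ω, ∑ j ∈ range J, g i j ω ∂μ = ∑ j ∈ range J, μ.real (E i ∩ E j) := by
      intro i
      rw [integral_finsetSum _ (fun j _ => hgi i j)]
      exact sum_congr rfl (fun j _ => hgint i j)
    simp_rw [h1, hfint]
    rw [← hS]
    simp
    ring
  have hup : (∑ i ∈ range J, ∑ j ∈ range J, μ.real (E i ∩ E j)) ≤ S + S ^ 2 := by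
    have h2 : ∀ i ∈ range J, ∑ j ∈ range J, μ.real (E i ∩ E j) ≤
        μ.real (E i) + ∑ j ∈ range J, μ.real (E i) * μ.real (E j) := by
      intro i hi
      rw [← sum_erase_add _ _ hi, ← sum_erase_add (range J) (fun j => μ.real (E i) * μ.real (E j)) hi]
      have h3 : ∑ j ∈ (range J).erase i, μ.real (E i ∩ E j) ≤
          ∑ j ∈ (range J).erase i, μ.real (E i) * μ.real (E j) := by
        apply sum_le_sum
        intro j hj
        exact hn i (mem_range.mp hi) j (mem_range.mp (mem_of_mem_erase hj)) (ne_of_mem_erase hj).symm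
      have h4 : μ.real (E i ∩ E i) = μ.real (E i) := by rw [Set.inter_self]
      have h5 : 0 ≤ μ.real (E i) * μ.real (E i) := mul_self_nonneg _
      linarith
    calc (∑ i ∈ range J, ∑ j ∈ range J, μ.real (E i ∩ E j))
        ≤ ∑ i ∈ range J, (μ.real (E i) + ∑ j ∈ range J, μ.real (E i) * μ.real (E j)) := sum_le_sum h2
      _ = S + S ^ 2 := by
        rw [sum_add_distrib, ← sum_mul_sum, ← hS]
        ring
  have hZ : MeasurableSet {ω | ∀ j < J, ω ∉ E j} := by
    have : {ω | ∀ j < J, ω ∉ E j} = ⋂ j ∈ range J, (E j)ᶜ := by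
      ext ω; simp
    rw [this]
    exact Finset.measurableSet_biInter _ (fun j _ => (hE j).compl)
  have hlowI : S ^ 2 * μ.real {ω | ∀ j < J, ω ∉ E j} ≤ ∫ ω, (∑ j ∈ range J, f j ω - S) ^ 2 ∂μ := by
    have h1 : S ^ 2 * μ.real {ω | ∀ j < J, ω ∉ E j} =
        ∫ ω, S ^ 2 * ({ω | ∀ j < J, ω ∉ E j} : Set Ω).indicator (fun _ => (1 : ℝ)) ω ∂μ := by
      rw [integral_const_mul]
      have := integral_indicator_one (μ := μ) hZ
      rw [← this]
      rfl
    rw [h1]
    apply integral_mono
    · exact ((integrable_const _).indicator hZ).const_mul _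
    · simp_rw [hsq]
      exact (hGi.sub (hFi.const_mul _)).add (integrable_const _)
    · intro ω
      simp only [Set.indicator_apply]
      by_cases h : ω ∈ {ω | ∀ j < J, ω ∉ E j}
      · rw [if_pos h]
        have h0 : ∑ j ∈ range J, f j ω = 0 := by
          apply sum_eq_zero
          intro j hj
          simp only [f, Set.indicator_apply]
          rw [if_neg (h j (mem_range.mp hj))]
        rw [h0]
        nlinarith
      · rw [if_neg h]
        nlinarith [sq_nonneg (∑ j ∈ range J, f j ω - S)]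
  have hfin : S ^ 2 * μ.real {ω | ∀ j < J, ω ∉ E j} ≤ S := by
    rw [hI] at hlowI
    linarith
  have h6 : μ.real {ω | ∀ j < J, ω ∉ E j} ≤ 1 / S := by
    rw [le_div_iff₀ hS0]
    have : S * (μ.real {ω | ∀ j < J, ω ∉ E j} * S) ≤ S * 1 := by nlinarith
    exact le_of_mul_le_mul_left this hS0
  exact h6.trans (one_div_le_one_div_of_le hJm hSlow)

end Pool.Agent.Helper767_SH
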