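import Mathlib
import Pool.Agent.Helper767_SH.Core

set_option autoImplicit false

/-! Random shifts of the primes: no long intervals without shifted primes. -/

open MeasureTheory ProbabilityTheory Filter Finset

namespace Pool.Agent.Helper767_SH

variable {Ω : Type*} [MeasurableSpace Ω] {μ : Measure Ω} [IsProbabilityMeasure μ]
  {X : ℕ → Ω → ℕ} {L : ℕ → ℕ}

/-- `L` is nondecreasing, `L(n) = o(n)`, and `L(m) / L(n) → 1` if `m / n → 1`. -/
structure Reg (L : ℕ → ℕ) : Prop where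
  mono : Monotone L
  small : ∀ δ : ℝ, 0 < δ → ∀ᶠ n : ℕ in atTop, (L n : ℝ) ≤ δ * n
  slow : ∀ δ : ℝ, 0 < δ → ∃ η : ℝ, 0 < η ∧ ∀ᶠ n : ℕ in atTop, ∀ m : ℕ, (1 - η) * n ≤ m →
    (1 - δ) * L n ≤ L m

/-- a lower bound for the number of primes in short intervals -/
def LowP (L : ℕ → ℕ) (c : ℝ) : Prop := ∀ δ : ℝ, 0 < δ → ∀ᶠ n : ℕ in atTop, ∀ Y : ℕ,
  (1 / 2 : ℝ) * L n ≤ Y → Y ≤ L n →
    c * (1 - δ) * (Y / Real.log n) ≤ (((Ioc (n - Y) n).filter Nat.Prime).card : ℝ)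

/-- the Borel-Cantelli lemma -/
theorem bc (B : ℕ → Set Ω) (r : ℝ) (hr0 : 0 ≤ r) (hr1 : r < 1)
    (h : ∀ᶠ k : ℕ in atTop, μ.real (B k) ≤ r ^ k) : ∀ᵐ ω ∂μ, ∀ᶠ k in atTop, ω ∉ B k := by
  classical
  obtain ⟨k₀, hk₀⟩ := eventually_atTop.mp h
  let B' : ℕ → Set Ω := fun k => if k₀ ≤ k then B k else ∅
  have h1 : ∀ k, μ (B' k) ≤ ENNReal.ofReal (r ^ k) := by
    intro k
    simp only [B']
    split_ifs with hk
    · rw [← ofReal_measureReal (measure_ne_top _ _)]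
      exact ENNReal.ofReal_le_ofReal (hk₀ k hk)
    · simp
  have h2 : ∑' k, μ (B' k) ≠ ⊤ := by
    have h3 : ∑' k, μ (B' k) ≤ ∑' k, ENNReal.ofReal (r ^ k) := ENNReal.tsum_le_tsum h1
    have h4 : Summable (fun k : ℕ => r ^ k) := summable_geometric_of_lt_one hr0 hr1
    exact ne_top_of_le_ne_top h4.tsum_ofReal_ne_top h3
  filter_upwards [ae_eventually_notMem h2] with ω hω
  filter_upwards [hω, eventually_ge_atTop k₀] with k hk hk2
  simp only [B', if_pos hk2] at hk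
  exact hk

/-- the length of the intervals -/
noncomputable def len (K : ℝ) (k : ℕ) : ℕ := ⌊K * (k * Real.log 2) ^ 2⌋₊

theorem ev_dyadic {Q : ℕ → Prop} (h : ∀ᶠ n : ℕ in atTop, Q n) :
    ∀ᶠ k : ℕ in atTop, ∀ a : ℕ, 2 ^ (k - 1) < a → Q a := by
  obtain ⟨N, hN⟩ := eventually_atTop.mp h
  filter_upwards [eventually_ge_atTop (N + 1)] with k hk a ha
  apply hN
  have h1 : N < 2 ^ N := Nat.lt_two_pow_self
  have h2 : 2 ^ N ≤ 2 ^ (k - 1) := Nat.pow_le_pow_right (by norm_num) (by omega)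
  omega

theorem log_dyadic (k a : ℕ) (hk : 2 ≤ k) (h1 : 2 ^ (k - 1) < a) (h2 : a ≤ 2 ^ k) :
    (k * Real.log 2) / 2 ≤ Real.log a ∧ Real.log a ≤ k * Real.log 2 := by
  have ha : (0 : ℝ) < a := by
    have : 0 < 2 ^ (k - 1) := by positivity
    exact_mod_cast (by omega : 0 < a)
  have hl : 0 < Real.log 2 := Real.log_pos (by norm_num)
  constructor
  · have e1 : ((2 : ℝ) ^ (k - 1)) ≤ a := by exact_mod_cast h1.le
    have e2 : Real.log ((2 : ℝ) ^ (k - 1)) ≤ Real.log a := Real.log_le_log (by positivity) e1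
    rw [Real.log_pow] at e2
    have e3 : ((k - 1 : ℕ) : ℝ) = k - 1 := by
      rw [Nat.cast_sub (by omega)]; simp
    rw [e3] at e2
    have e4 : (2 : ℝ) ≤ k := by exact_mod_cast hk
    nlinarith
  · have e1 : (a : ℝ) ≤ (2 : ℝ) ^ k := by exact_mod_cast h2
    have e2 : Real.log a ≤ Real.log ((2 : ℝ) ^ k) := Real.log_le_log ha e1
    rwa [Real.log_pow] at e2

/-- the probability of an interval without shifted primes is small -/
theorem up_prob (hX : ∀ n, Measurable (X n)) (hi : iIndepFun X μ) (hu : Unif μ X L) (hL : Reg L)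
    (hbig : ∀ᶠ n : ℕ in atTop, (Real.log n) ^ 4 ≤ L n) (c : ℝ) (hc : 0 < c) (hP : LowP L c)
    (K : ℝ) (hK0 : 0 < K) (hK : 1 < c * K) :
    ∀ᶠ k : ℕ in atTop, ∀ a : ℕ, 2 ^ (k - 1) < a → a ≤ 2 ^ k →
      μ.real (Emp X (Ioc a (a + len K k))) ≤
        Real.exp (-((1 + (c * K - 1) / 2) * (k * Real.log 2))) := by
  set δ : ℝ := (1 - 1 / (c * K)) / 12 with hδ
  have hcK : 0 < c * K := by linarith
  have hinv : 1 / (c * K) < 1 := by rw [div_lt_one hcK]; exact hK
  have hinv0 : 0 < 1 / (c * K) := by positivity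
  have hδ0 : 0 < δ := by rw [hδ]; linarith
  have hδ1 : δ < 1 / 12 := by rw [hδ]; linarith
  have hcKδ : c * K * (1 - 6 * δ) = 1 + (c * K - 1) / 2 := by
    rw [hδ]; field_simp; ring
  obtain ⟨η, hη0, hη⟩ := hL.slow δ hδ0
  have hl2 : 0 < Real.log 2 := Real.log_pos (by norm_num)
  -- conditions on a
  have c1 := ev_dyadic hη
  have c2 := ev_dyadic (hL.small (min η (1 / 2)) (by positivity))
  have c3 := ev_dyadic hbig
  have c4 := ev_dyadic (hP δ hδ0)
  have tk : Tendsto (fun k : ℕ => (k : ℝ) * Real.log 2) atTop atTop :=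
    tendsto_natCast_atTop_atTop.atTop_mul_const hl2
  have c5 : ∀ᶠ k : ℕ in atTop, 16 * K / δ + 1 / (K * δ) + 4 / δ + 16 ≤ k * Real.log 2 :=
    tk.eventually_ge_atTop _
  filter_upwards [c1, c2, c3, c4, c5, eventually_ge_atTop 2] with k h1 h2 h3 h4 h5 hk2 a ha1 ha2
  have q1 := h1 a ha1
  have q2 := h2 a ha1
  have q3 := h3 a ha1
  have q4 := h4 a ha1
  obtain ⟨lg1, lg2⟩ := log_dyadic k a hk2 ha1 ha2
  set ℓ : ℝ := k * Real.log 2 with hℓ
  have p1 : 0 < 16 * K / δ := by positivity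
  have p2 : 0 < 1 / (K * δ) := by positivity
  have p3 : 0 < 4 / δ := by positivity
  have hℓ16 : 16 ≤ ℓ := by linarith
  have hlog : 0 < Real.log a := by linarith
  set h := len K k with hh
  have hh1 : (h : ℝ) ≤ K * ℓ ^ 2 := Nat.floor_le (by positivity)
  have hh2 : K * ℓ ^ 2 - 1 ≤ h := by
    have := Nat.lt_floor_add_one (K * ℓ ^ 2)
    have e : (h : ℝ) = (⌊K * ℓ ^ 2⌋₊ : ℝ) := rfl
    linarith
  have hh3 : K * (1 - δ) * ℓ ^ 2 ≤ h := by
    have e1 : 1 / (K * δ) ≤ ℓ := by linarith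
    rw [div_le_iff₀ (by positivity)] at e1
    have e2 : 1 ≤ K * δ * ℓ ^ 2 := by
      have : ℓ * (K * δ) * 1 ≤ ℓ * (K * δ) * ℓ := by
        apply mul_le_mul_of_nonneg_left (by linarith) (by positivity)
      nlinarith
    nlinarith
  -- size of L a
  have hLa : (ℓ / 2) ^ 4 ≤ L a := (pow_le_pow_left₀ (by positivity) lg1 4).trans q3
  have hLpos : (0 : ℝ) < L a := lt_of_lt_of_le (by positivity) hLa
  have hhL : (h : ℝ) ≤ δ * L a := by
    have e1 : 16 * K / δ ≤ ℓ := by linarith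
    rw [div_le_iff₀ hδ0] at e1
    have e2 : K * ℓ ^ 2 ≤ δ * (ℓ / 2) ^ 4 := by
      have e3 : 16 * K ≤ ℓ ^ 2 * δ := by
        have : ℓ * δ * 1 ≤ ℓ * δ * ℓ := by
          apply mul_le_mul_of_nonneg_left (by linarith) (by positivity)
        nlinarith
      nlinarith [sq_nonneg ℓ]
    calc (h : ℝ) ≤ K * ℓ ^ 2 := hh1
      _ ≤ δ * (ℓ / 2) ^ 4 := e2
      _ ≤ δ * L a := by gcongr
  have hL1 : 1 ≤ δ * L a := by
    have e1 : 4 / δ ≤ ℓ := by linarith
    rw [div_le_iff₀ hδ0] at e1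
    have e2 : ℓ ≤ (ℓ / 2) ^ 4 := by nlinarith [sq_nonneg (ℓ ^ 2), mul_pos (show 0 < ℓ by linarith) (show 0 < ℓ by linarith), pow_pos (show 0 < ℓ by linarith) 3]
    nlinarith
  -- the primes
  set Y : ℕ := ⌊(1 - 2 * δ) * L a⌋₊ with hY
  have hY1 : (Y : ℝ) ≤ (1 - 2 * δ) * L a := Nat.floor_le (by
    apply mul_nonneg (by linarith) hLpos.le)
  have hY2 : (1 - 3 * δ) * L a ≤ Y := by
    have := Nat.lt_floor_add_one ((1 - 2 * δ) * (L a : ℝ))
    have e : (Y : ℝ) = (⌊(1 - 2 * δ) * (L a : ℝ)⌋₊ : ℝ) := rfl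
    nlinarith
  have hYL : Y ≤ L a := by
    have : (Y : ℝ) ≤ L a := by nlinarith
    exact_mod_cast this
  have hcard := q4 Y (by nlinarith) hYL
  have hLη : (L a : ℝ) ≤ η * a := by
    refine q2.trans ?_
    have : min η (1 / 2) ≤ η := min_le_left _ _
    gcongr
  have hLa2 : (L a : ℝ) ≤ (1 / 2) * a := by
    refine q2.trans ?_
    have : min η (1 / 2) ≤ 1 / 2 := min_le_right _ _
    gcongr
  have hYa : Y ≤ a := by
    have ha0 : (0 : ℝ) ≤ a := by positivity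
    have : (Y : ℝ) ≤ a := by
      have h1 : (Y : ℝ) ≤ L a := by exact_mod_cast hYL
      linarith
    exact_mod_cast this
  set T := (Ioc (a - Y) a).filter Nat.Prime with hT
  have hTP : T ⊆ P (a + h) := by
    intro p hp
    rw [hT, mem_filter, mem_Ioc] at hp
    exact mem_filter.mpr ⟨mem_Icc.mpr ⟨hp.2.one_lt.le, by omega⟩, hp.2⟩
  have key := emp_le hX hi hu (Ioc a (a + h)) (a + h) (fun i hi => (mem_Ioc.mp hi).2) T hTP
    ((h : ℝ) / ((L a : ℝ) + 1)) ?_
  · refine key.trans (Real.exp_le_exp.mpr (neg_le_neg ?_))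
    -- the numerical inequality
    have f1 : c * (1 - δ) * ((1 - 3 * δ) * L a / Real.log a) ≤ T.card := by
      refine le_trans ?_ hcard
      apply mul_le_mul_of_nonneg_left _ (by apply mul_nonneg hc.le; linarith)
      gcongr
    have f2 : (1 - δ) / L a * h ≤ (h : ℝ) / ((L a : ℝ) + 1) := by
      rw [div_mul_eq_mul_div, div_le_div_iff₀ hLpos (by positivity)]
      have : (1 - δ) * ((L a : ℝ) + 1) ≤ L a := by nlinarith
      nlinarith [Nat.cast_nonneg (α := ℝ) h]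
    have f3 : K * (1 - δ) * ℓ ≤ h / Real.log a := by
      rw [le_div_iff₀ hlog]
      have : K * (1 - δ) * ℓ * Real.log a ≤ K * (1 - δ) * ℓ * ℓ := by
        apply mul_le_mul_of_nonneg_left lg2
        apply mul_nonneg (mul_nonneg hK0.le (by linarith)) (by linarith)
      nlinarith
    calc (1 + (c * K - 1) / 2) * ℓ = c * K * (1 - 6 * δ) * ℓ := by rw [hcKδ]
      _ ≤ c * (1 - δ) * ((1 - 3 * δ) * (1 - δ) * (K * (1 - δ) * ℓ)) := by
        have g1 : (1 - 6 * δ) ≤ (1 - δ) * ((1 - 3 * δ) * (1 - δ) * (1 - δ)) := by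
          nlinarith [mul_pos hδ0 hδ0, mul_pos (mul_pos hδ0 hδ0) hδ0, mul_pos (mul_pos hδ0 hδ0) (mul_pos hδ0 hδ0)]
        have g2 : 0 ≤ c * K * ℓ := by positivity
        calc c * K * (1 - 6 * δ) * ℓ = c * K * ℓ * (1 - 6 * δ) := by ring
          _ ≤ c * K * ℓ * ((1 - δ) * ((1 - 3 * δ) * (1 - δ) * (1 - δ))) :=
            mul_le_mul_of_nonneg_left g1 g2
          _ = _ := by ring
      _ ≤ c * (1 - δ) * ((1 - 3 * δ) * (1 - δ) * (h / Real.log a)) := by
        have g3 : 0 ≤ 1 - δ := by linarith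
        have g4 : 0 ≤ 1 - 3 * δ := by linarith
        gcongr
      _ = (c * (1 - δ) * ((1 - 3 * δ) * L a / Real.log a)) * ((1 - δ) / L a * h) := by
        field_simp
      _ ≤ T.card * ((h : ℝ) / ((L a : ℝ) + 1)) := by
        apply mul_le_mul f1 f2 _ (Nat.cast_nonneg _)
        apply mul_nonneg (div_nonneg (by linarith) hLpos.le) (Nat.cast_nonneg _)
  · intro p hp
    rw [hT, mem_filter, mem_Ioc] at hp
    obtain ⟨⟨hp1, hp2⟩, -⟩ := hp
    have hpm : (1 - η) * (a : ℝ) ≤ p := by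
      have g1 : (a : ℝ) - Y < p := by
        have : ((a - Y : ℕ) : ℝ) < p := by exact_mod_cast hp1
        rwa [Nat.cast_sub hYa] at this
      have g2 : (Y : ℝ) ≤ L a := by exact_mod_cast hYL
      linarith
    have hLp := q1 p hpm
    have hYh : Y + h ≤ L p := by
      have : (Y : ℝ) + h ≤ L p := by linarith
      exact_mod_cast this
    have hcnt : cnt L (Ioc a (a + h)) p = h := by
      unfold cnt
      have : (range (L p + 1)).filter (fun k => p + k ∈ Ioc a (a + h)) = Ioc (a - p) (a + h - p) := by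
        ext j
        simp only [mem_filter, mem_range, mem_Ioc]
        omega
      rw [this, Nat.card_Ioc]
      omega
    rw [hcnt]
    have hmono : (L p : ℝ) ≤ L a := by exact_mod_cast hL.mono hp2
    apply div_le_div_of_nonneg_left (Nat.cast_nonneg _) (by positivity)
    linarith

/-- almost surely there are no long intervals without shifted primes -/
theorem up_as (hX : ∀ n, Measurable (X n)) (hi : iIndepFun X μ) (hu : Unif μ X L) (hL : Reg L)
    (hbig : ∀ᶠ n : ℕ in atTop, (Real.log n) ^ 4 ≤ L n) (c : ℝ) (hc : 0 < c) (hP : LowP L c)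
    (K : ℝ) (hK0 : 0 < K) (hK : 1 < c * K) :
    ∀ᵐ ω ∂μ, ∀ᶠ k : ℕ in atTop, ∀ a : ℕ, 2 ^ (k - 1) < a → a ≤ 2 ^ k →
      ω ∉ Emp X (Ioc a (a + len K k)) := by
  have hl2 : 0 < Real.log 2 := Real.log_pos (by norm_num)
  set κ : ℝ := (c * K - 1) / 2 with hκ
  have hκ0 : 0 < κ := by rw [hκ]; linarith
  have h1 := up_prob hX hi hu hL hbig c hc hP K hK0 hK
  have h2 := bc (μ := μ) (fun k => ⋃ a ∈ Ioc (2 ^ (k - 1)) (2 ^ k), Emp X (Ioc a (a + len K k)))
    (Real.exp (-(κ * Real.log 2))) (Real.exp_pos _).le (by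
      rw [Real.exp_lt_one_iff]; nlinarith) ?_
  · filter_upwards [h2] with ω hω
    filter_upwards [hω] with k hk a ha1 ha2 hcon
    apply hk
    simp only [Set.mem_iUnion]
    exact ⟨a, mem_Ioc.mpr ⟨ha1, ha2⟩, hcon⟩
  · filter_upwards [h1] with k hk
    calc μ.real (⋃ a ∈ Ioc (2 ^ (k - 1)) (2 ^ k), Emp X (Ioc a (a + len K k)))
        ≤ ∑ a ∈ Ioc (2 ^ (k - 1)) (2 ^ k), μ.real (Emp X (Ioc a (a + len K k))) :=
          measureReal_biUnion_finset_le _ _
      _ ≤ ∑ a ∈ Ioc (2 ^ (k - 1)) (2 ^ k), Real.exp (-((1 + κ) * (k * Real.log 2))) := by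
          apply sum_le_sum
          intro a ha
          exact hk a (mem_Ioc.mp ha).1 (mem_Ioc.mp ha).2
      _ ≤ 2 ^ k * Real.exp (-((1 + κ) * (k * Real.log 2))) := by
          rw [sum_const, nsmul_eq_mul, Nat.card_Ioc]
          apply mul_le_mul_of_nonneg_right _ (Real.exp_pos _).le
          have : (2 ^ k - 2 ^ (k - 1) : ℕ) ≤ 2 ^ k := Nat.sub_le _ _
          exact_mod_cast this
      _ = Real.exp (-(κ * Real.log 2)) ^ k := by
          have e1 : (2 : ℝ) ^ k = Real.exp (k * Real.log 2) := by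
            rw [Real.exp_nat_mul, Real.exp_log (by norm_num)]
          rw [e1, ← Real.exp_add, ← Real.exp_nat_mul]
          congr 1
          ring

end Pool.Agent.Helper767_SH
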