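import Mathlib
import Pool.Agent.Helper767_SH.Core
import Pool.Agent.Helper767_SH.Second
import Pool.Agent.Helper767_SH.Upper

set_option autoImplicit false

/-! Random shifts of the primes: existence of long intervals without shifted primes. -/

open MeasureTheory ProbabilityTheory Filter Finset

namespace Pool.Agent.Helper767_SH

variable {Ω : Type*} [MeasurableSpace Ω] {μ : Measure Ω} [IsProbabilityMeasure μ]
  {X : ℕ → Ω → ℕ} {L : ℕ → ℕ}

/-- an upper bound for the number of primes in short intervals -/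
def UpP (L : ℕ → ℕ) (C : ℝ) : Prop := ∀ δ : ℝ, 0 < δ → ∀ᶠ n : ℕ in atTop, ∀ Y : ℕ,
  L n ≤ Y → Y ≤ 2 * L n → (((Ioc (n - Y) n).filter Nat.Prime).card : ℝ) ≤
    C * (1 + δ) * (Y / Real.log n)

/-- lower bound for the probability of an interval without shifted primes -/
theorem low_prob (hX : ∀ n, Measurable (X n)) (hi : iIndepFun X μ) (hu : Unif μ X L) (hL : Reg L)
    (hbig : ∀ᶠ n : ℕ in atTop, (Real.log n) ^ 4 ≤ L n) (C : ℝ) (hC : 1 ≤ C) (hP : UpP L C)
    (K : ℝ) (hK0 : 0 < K) (hK : C * K < 1) :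
    ∀ᶠ k : ℕ in atTop, ∀ a : ℕ, 2 ^ (k - 1) < a → a + len K k ≤ 2 ^ k →
      Real.exp (-((C * K + (1 - C * K) / 2) * (k * Real.log 2))) ≤
        μ.real (Emp X (Ioc a (a + len K k))) := by
  have hC0 : 0 < C := by linarith
  have hCK : 0 < C * K := by positivity
  set δ : ℝ := (1 - C * K) / 20 with hδ
  have hδ0 : 0 < δ := by rw [hδ]; linarith
  have hδ1 : δ < 1 / 20 := by rw [hδ]; linarith
  obtain ⟨η, hη0, hη⟩ := hL.slow δ hδ0
  have hl2 : 0 < Real.log 2 := Real.log_pos (by norm_num)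
  have c1 := ev_dyadic hη
  have c2 := ev_dyadic (hL.small (min (η / 2) (1 / 4)) (by positivity))
  have c3 := ev_dyadic hbig
  have c4 := ev_dyadic (hP δ hδ0)
  have tk : Tendsto (fun k : ℕ => (k : ℝ) * Real.log 2) atTop atTop :=
    tendsto_natCast_atTop_atTop.atTop_mul_const hl2
  have c5 : ∀ᶠ k : ℕ in atTop, 32 * K / δ + 1 / δ + 16 ≤ k * Real.log 2 :=
    tk.eventually_ge_atTop _
  filter_upwards [c1, c2, c3, c4, c5, eventually_ge_atTop 2] with k h1 h2 h3 h4 h5 hk2 a ha1 ha2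
  set h := len K k with hh
  set b := a + h with hb
  have hb1 : 2 ^ (k - 1) < b := by omega
  have q1 := h1 b hb1
  have q2 := h2 b hb1
  have q3 := h3 b hb1
  have q4 := h4 b hb1
  obtain ⟨lg1, lg2⟩ := log_dyadic k b hk2 hb1 ha2
  set ℓ : ℝ := k * Real.log 2 with hℓ
  have p1 : 0 < 32 * K / δ := by positivity
  have p2 : 0 < 1 / δ := by positivity
  have hℓ16 : 16 ≤ ℓ := by linarith
  have hlog : 0 < Real.log b := by linarith
  have hlogb : (1 - δ) * ℓ ≤ Real.log b := by
    have e1 : ((2 : ℝ) ^ (k - 1)) ≤ b := by exact_mod_cast hb1.le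
    have e2 : Real.log ((2 : ℝ) ^ (k - 1)) ≤ Real.log b := Real.log_le_log (by positivity) e1
    rw [Real.log_pow] at e2
    have e3 : ((k - 1 : ℕ) : ℝ) = k - 1 := by
      rw [Nat.cast_sub (by omega)]; simp
    rw [e3] at e2
    have e4 : 1 / δ ≤ ℓ := by linarith
    rw [div_le_iff₀ hδ0] at e4
    have e5 : Real.log 2 < 1 := by
      have := Real.log_two_lt_d9; linarith
    nlinarith
  have hh1 : (h : ℝ) ≤ K * ℓ ^ 2 := Nat.floor_le (by positivity)
  have hLb : (ℓ / 2) ^ 4 ≤ L b := (pow_le_pow_left₀ (by positivity) lg1 4).trans q3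
  have hLpos : (0 : ℝ) < L b := lt_of_lt_of_le (by positivity) hLb
  have hhL : (h : ℝ) ≤ δ / 2 * L b := by
    have e1 : 32 * K / δ ≤ ℓ := by linarith
    rw [div_le_iff₀ hδ0] at e1
    have e2 : K * ℓ ^ 2 ≤ δ / 2 * (ℓ / 2) ^ 4 := by
      have e3 : 32 * K ≤ ℓ ^ 2 * δ := by
        have : ℓ * δ * 1 ≤ ℓ * δ * ℓ := by
          apply mul_le_mul_of_nonneg_left (by linarith) (by positivity)
        nlinarith
      nlinarith [sq_nonneg ℓ]
    calc (h : ℝ) ≤ K * ℓ ^ 2 := hh1
      _ ≤ δ / 2 * (ℓ / 2) ^ 4 := e2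
      _ ≤ δ / 2 * L b := by gcongr
  have hhLn : h ≤ L b := by
    have : (h : ℝ) ≤ L b := by nlinarith
    exact_mod_cast this
  have hb0 : (0 : ℝ) ≤ b := by positivity
  have hLη : (L b : ℝ) ≤ η / 2 * b := by
    refine q2.trans ?_
    have : min (η / 2) (1 / 4) ≤ η / 2 := min_le_left _ _
    gcongr
  have hLb4 : (L b : ℝ) ≤ 1 / 4 * b := by
    refine q2.trans ?_
    have : min (η / 2) (1 / 4) ≤ 1 / 4 := min_le_right _ _
    gcongr
  have hYb : L b + h ≤ b := by
    have h1 : (h : ℝ) ≤ L b := by exact_mod_cast hhLn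
    have : (L b : ℝ) + h ≤ b := by linarith
    exact_mod_cast this
  set T := (P b).filter (fun p => a < p + L p) with hT
  have hTP : T ⊆ P b := filter_subset _ _
  have hTI : T ⊆ (Ioc (b - (L b + h)) b).filter Nat.Prime := by
    intro p hp
    rw [hT, mem_filter, P, mem_filter, mem_Icc] at hp
    obtain ⟨⟨⟨hp1, hp2⟩, hp3⟩, hp4⟩ := hp
    have hm : L p ≤ L b := hL.mono hp2
    rw [mem_filter, mem_Ioc]
    refine ⟨⟨by omega, hp2⟩, hp3⟩
  have hcard : (T.card : ℝ) ≤ C * (1 + δ) * (((L b + h : ℕ) : ℝ) / Real.log b) := by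
    have := q4 (L b + h) (by omega) (by omega)
    exact (by exact_mod_cast card_le_card hTI : (T.card : ℝ) ≤ _).trans this
  set t : ℝ := (h : ℝ) / ((1 - δ) * L b) with ht
  have ht0 : 0 ≤ t := by rw [ht]; apply div_nonneg (Nat.cast_nonneg _); apply mul_nonneg (by linarith) hLpos.le
  have htδ : t ≤ δ := by
    rw [ht, div_le_iff₀ (mul_pos (by linarith) hLpos)]
    nlinarith
  have key := le_emp hX hi hu (Ioc a b) b (fun i hi => (mem_Ioc.mp hi).2) T hTP t ht0 (by linarith) ?_ ?_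
  · refine le_trans (Real.exp_le_exp.mpr (neg_le_neg ?_)) key
    have g0 : t / (1 - t) ≤ (h : ℝ) / ((1 - δ) ^ 2 * L b) := by
      have e1 : t / (1 - t) ≤ t / (1 - δ) := by
        apply div_le_div_of_nonneg_left ht0 (by linarith) (by linarith)
      refine e1.trans (le_of_eq ?_)
      rw [ht]
      field_simp
    have g1 : (((L b + h : ℕ) : ℝ)) ≤ (1 + δ) * L b := by
      push_cast
      nlinarith
    have g2 : (T.card : ℝ) ≤ C * (1 + δ) * ((1 + δ) * L b / Real.log b) := by
      refine hcard.trans ?_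
      have : 0 ≤ C * (1 + δ) := by positivity
      gcongr
    have g3 : 1 / Real.log b ≤ 1 / ((1 - δ) * ℓ) :=
      one_div_le_one_div_of_le (mul_pos (by linarith) (by linarith)) hlogb
    have hℓ0 : 0 < ℓ := by linarith
    have h1δ : 0 < 1 - δ := by linarith
    calc (T.card : ℝ) * (t / (1 - t))
        ≤ (C * (1 + δ) * ((1 + δ) * L b / Real.log b)) * ((h : ℝ) / ((1 - δ) ^ 2 * L b)) := by
          apply mul_le_mul g2 g0 (div_nonneg ht0 (by linarith))
          apply mul_nonneg (by positivity)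
          apply div_nonneg (mul_nonneg (by linarith) hLpos.le) hlog.le
      _ = C * ((1 + δ) ^ 2 / (1 - δ) ^ 2 * h * (1 / Real.log b)) := by
          field_simp
      _ ≤ C * ((1 + δ) ^ 2 / (1 - δ) ^ 2 * (K * ℓ ^ 2) * (1 / ((1 - δ) * ℓ))) := by
          gcongr
      _ = (1 + δ) ^ 2 / (1 - δ) ^ 3 * (C * K) * ℓ := by
          field_simp
      _ ≤ (1 + 8 * δ) * (C * K) * ℓ := by
          have g4 : (1 + δ) ^ 2 / (1 - δ) ^ 3 ≤ 1 + 8 * δ := by
            rw [div_le_iff₀ (by positivity)]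
            nlinarith [mul_pos hδ0 hδ0, mul_pos (mul_pos hδ0 hδ0) hδ0, mul_pos (mul_pos hδ0 hδ0) (mul_pos hδ0 hδ0)]
          gcongr
      _ ≤ (C * K + (1 - C * K) / 2) * ℓ := by
          have g5 : (1 + 8 * δ) * (C * K) ≤ C * K + (1 - C * K) / 2 := by
            have : 8 * δ * (C * K) ≤ 8 * δ * 1 := by
              apply mul_le_mul_of_nonneg_left hK.le (by positivity)
            rw [hδ] at this ⊢
            nlinarith
          exact mul_le_mul_of_nonneg_right g5 hℓ0.le
  · intro p hp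
    have hp' := hTI hp
    rw [mem_filter, mem_Ioc] at hp'
    obtain ⟨⟨hp1, hp2⟩, -⟩ := hp'
    have hpm : (1 - η) * (b : ℝ) ≤ p := by
      have g1 : (b : ℝ) - ((L b : ℝ) + h) < p := by
        have h0 : ((b - (L b + h) : ℕ) : ℝ) < p := by exact_mod_cast hp1
        have e : ((b - (L b + h) : ℕ) : ℝ) = (b : ℝ) - ((L b : ℝ) + h) := by
          rw [Nat.cast_sub hYb, Nat.cast_add (L b) h]
        rw [e] at h0
        exact h0
      have g2 : (h : ℝ) ≤ η / 2 * b := by
        have h1 : (h : ℝ) ≤ L b := by exact_mod_cast hhLn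
        linarith
      linarith
    have hLp := q1 p hpm
    have hcnt : (cnt L (Ioc a b) p : ℝ) ≤ h := by
      have := cnt_le_card (L := L) (Ioc a b) p
      rw [Nat.card_Ioc] at this
      have h2 : cnt L (Ioc a b) p ≤ h := by omega
      exact_mod_cast h2
    have h1δ : 0 < 1 - δ := by linarith
    calc (cnt L (Ioc a b) p : ℝ) / ((L p : ℝ) + 1) ≤ h / ((L p : ℝ) + 1) := by gcongr
      _ ≤ t := by
        rw [ht]
        apply div_le_div_of_nonneg_left (Nat.cast_nonneg _) (mul_pos h1δ hLpos)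
        linarith
  · intro p hp hpT
    rw [hT, mem_filter, not_and] at hpT
    have h1 := hpT hp
    unfold cnt
    rw [card_eq_zero, filter_eq_empty_iff]
    intro j hj hj2
    rw [mem_range] at hj
    rw [mem_Ioc] at hj2
    omega

/-- almost surely there are long intervals without shifted primes -/
theorem low_as (hX : ∀ n, Measurable (X n)) (hi : iIndepFun X μ) (hu : Unif μ X L) (hL : Reg L)
    (hbig : ∀ᶠ n : ℕ in atTop, (Real.log n) ^ 4 ≤ L n) (C : ℝ) (hC : 1 ≤ C) (hP : UpP L C)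
    (K : ℝ) (hK0 : 0 < K) (hK : C * K < 1) :
    ∀ᵐ ω ∂μ, ∀ᶠ k : ℕ in atTop, ∃ a : ℕ, 2 ^ (k - 1) < a ∧ a + len K k ≤ 2 ^ k ∧
      ω ∈ Emp X (Ioc a (a + len K k)) := by
  have hl2 : 0 < Real.log 2 := Real.log_pos (by norm_num)
  have hC0 : 0 < C := by linarith
  have hCK : 0 < C * K := by positivity
  have hK1 : K < 1 := by nlinarith
  set κ : ℝ := (1 - C * K) / 4 with hκ
  have hκ0 : 0 < κ := by rw [hκ]; linarith
  have h1 := low_prob hX hi hu hL hbig C hC hP K hK0 hK
  have tk : Tendsto (fun k : ℕ => (k : ℝ) * Real.log 2) atTop atTop :=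
    tendsto_natCast_atTop_atTop.atTop_mul_const hl2
  have c5 : ∀ᶠ k : ℕ in atTop, 48 / κ ^ 3 + 1 ≤ k * Real.log 2 := tk.eventually_ge_atTop _
  let st : ℕ → ℕ → ℕ := fun k j => 2 ^ (k - 1) + 1 + j * len K k
  let num : ℕ → ℕ := fun k => 2 ^ (k - 1) / (len K k + 1)
  have h2 := bc (μ := μ) (fun k => {ω | ∀ j < num k, ω ∉ Emp X (Ioc (st k j) (st k j + len K k))})
    (Real.exp (-(κ * Real.log 2))) (Real.exp_pos _).le (by
      rw [Real.exp_lt_one_iff]; nlinarith) ?_
  · filter_upwards [h2] with ω hω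
    filter_upwards [hω, eventually_ge_atTop 2] with k hk hk2
    simp only [not_forall, not_not] at hk
    obtain ⟨j, hj, hj2⟩ := hk
    refine ⟨st k j, ?_, ?_, hj2⟩
    · simp only [st]; omega
    · simp only [st, num] at hj ⊢
      have e1 : (j + 1) * (len K k + 1) ≤ 2 ^ (k - 1) := by
        calc (j + 1) * (len K k + 1) ≤ (2 ^ (k - 1) / (len K k + 1)) * (len K k + 1) :=
              Nat.mul_le_mul_right _ hj
          _ ≤ 2 ^ (k - 1) := Nat.div_mul_le_self _ _
      have e2 : 2 ^ k = 2 ^ (k - 1) + 2 ^ (k - 1) := by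
        obtain ⟨m, rfl⟩ : ∃ m, k = m + 1 := ⟨k - 1, by omega⟩
        simp only [Nat.add_sub_cancel]
        ring
      nlinarith
  · filter_upwards [h1, c5, eventually_ge_atTop 2] with k hk hk5 hk2
    set ℓ : ℝ := k * Real.log 2 with hℓ
    have p1 : 0 < 48 / κ ^ 3 := by positivity
    have hℓ1 : 1 ≤ ℓ := by linarith
    set h := len K k with hh
    have hh1 : (h : ℝ) ≤ K * ℓ ^ 2 := Nat.floor_le (by positivity)
    have hexp : (2 : ℝ) ^ k = Real.exp ℓ := by
      rw [hℓ, Real.exp_nat_mul, Real.exp_log (by norm_num)]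
    -- growth
    have g1 : 4 * ((h : ℝ) + 1) ≤ Real.exp (κ * ℓ) := by
      have e1 := Real.pow_div_factorial_le_exp (κ * ℓ) (by positivity) 3
      have e2 : 48 / κ ^ 3 ≤ ℓ := by linarith
      rw [div_le_iff₀ (by positivity)] at e2
      have e3 : (8 : ℝ) * ℓ ^ 2 ≤ (κ * ℓ) ^ 3 / (Nat.factorial 3 : ℕ) := by
        rw [le_div_iff₀ (by positivity)]
        have e4 : ((Nat.factorial 3 : ℕ) : ℝ) = 6 := by norm_num [Nat.factorial]
        rw [e4]
        have e5 : 48 * ℓ ^ 2 ≤ (ℓ * κ ^ 3) * ℓ ^ 2 := mul_le_mul_of_nonneg_right e2 (by positivity)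
        nlinarith
      have e6 : (h : ℝ) ≤ ℓ ^ 2 := by nlinarith [sq_nonneg ℓ]
      nlinarith
    have g2 : 4 * ((h : ℝ) + 1) ≤ 2 ^ k := by
      rw [hexp]
      refine g1.trans (Real.exp_le_exp.mpr ?_)
      have : κ ≤ 1 := by rw [hκ]; linarith
      nlinarith
    have hJr : (2 : ℝ) ^ k / (4 * ((h : ℝ) + 1)) ≤ (num k : ℝ) := by
      have e1 : 2 ^ (k - 1) < (h + 1) * (2 ^ (k - 1) / (h + 1) + 1) :=
        Nat.lt_mul_div_succ _ (by omega)
      have e2 : (2 : ℝ) ^ (k - 1) < ((h : ℝ) + 1) * ((num k : ℝ) + 1) := by exact_mod_cast e1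
      have e3 : (2 : ℝ) ^ k = 2 * 2 ^ (k - 1) := by
        obtain ⟨m, rfl⟩ : ∃ m, k = m + 1 := ⟨k - 1, by omega⟩
        simp only [Nat.add_sub_cancel]
        ring
      rw [div_le_iff₀ (by positivity)]
      have hpos : (0 : ℝ) < (h : ℝ) + 1 := by positivity
      nlinarith
    have hJpos : 0 < num k := by
      have : (0 : ℝ) < (num k : ℝ) := lt_of_lt_of_le (by positivity) hJr
      exact_mod_cast this
    have hbound : ∀ j < num k, st k j + h ≤ 2 ^ k := by
      intro j hj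
      simp only [st, num] at hj ⊢
      have e1 : (j + 1) * (h + 1) ≤ 2 ^ (k - 1) := by
        calc (j + 1) * (h + 1) ≤ (2 ^ (k - 1) / (h + 1)) * (h + 1) := Nat.mul_le_mul_right _ hj
          _ ≤ 2 ^ (k - 1) := Nat.div_mul_le_self _ _
      have e2 : 2 ^ k = 2 ^ (k - 1) + 2 ^ (k - 1) := by
        obtain ⟨m, rfl⟩ : ∃ m, k = m + 1 := ⟨k - 1, by omega⟩
        simp only [Nat.add_sub_cancel]
        ring
      nlinarith
    have hsec := second (μ := μ) (fun j => Emp X (Ioc (st k j) (st k j + h)))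
      (fun j => meas_emp hX _) (num k) ?_ (Real.exp (-((C * K + (1 - C * K) / 2) * ℓ))) (Real.exp_pos _) hJpos ?_
    · refine hsec.trans ?_
      have e1 : Real.exp (κ * ℓ) ≤ (num k : ℝ) * Real.exp (-((C * K + (1 - C * K) / 2) * ℓ)) := by
        calc Real.exp (κ * ℓ) ≤ Real.exp (κ * ℓ) * (Real.exp (κ * ℓ) / (4 * ((h : ℝ) + 1))) := by
              have : 1 ≤ Real.exp (κ * ℓ) / (4 * ((h : ℝ) + 1)) := by
                rw [one_le_div (by positivity)]; exact g1
              have h0 := Real.exp_pos (κ * ℓ)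
              nlinarith
          _ = (2 : ℝ) ^ k / (4 * ((h : ℝ) + 1)) * Real.exp (-((C * K + (1 - C * K) / 2) * ℓ)) := by
              have e3 : Real.exp (κ * ℓ) * Real.exp (κ * ℓ) =
                  Real.exp ℓ * Real.exp (-((C * K + (1 - C * K) / 2) * ℓ)) := by
                rw [← Real.exp_add, ← Real.exp_add]
                congr 1
                rw [hκ]
                ring
              rw [hexp, ← mul_div_assoc, e3]
              ring
          _ ≤ _ := mul_le_mul_of_nonneg_right hJr (Real.exp_pos _).le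
      have e2 : Real.exp (-(κ * Real.log 2)) ^ k = 1 / Real.exp (κ * ℓ) := by
        rw [← Real.exp_nat_mul, one_div, ← Real.exp_neg]
        congr 1
        rw [hℓ]
        ring
      rw [e2]
      exact one_div_le_one_div_of_le (Real.exp_pos _) e1
    · intro i hi' j hj hij
      apply emp_pair hX hi hu
      rw [Finset.disjoint_left]
      intro x hx hx2
      rw [mem_Ioc] at hx hx2
      simp only [st] at hx hx2
      rcases lt_or_gt_of_ne hij with h3 | h3
      · have : (i + 1) * h ≤ j * h := Nat.mul_le_mul_right _ h3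
        rw [← hh] at hx hx2
        nlinarith
      · have : (j + 1) * h ≤ i * h := Nat.mul_le_mul_right _ h3
        rw [← hh] at hx hx2
        nlinarith
    · intro j hj
      apply hk
      · simp only [st]; omega
      · exact hbound j hj

end Pool.Agent.Helper767_SH
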