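import Mathlib
import Pool.Agent.H442R2.EHI.PntErr

set_option autoImplicit false

/-! The number of primes in intervals of length at least `n / (log n) ^ A`. -/

open Filter Finset

namespace Pool.Agent.Helper767_SH

open Pool.Agent.H442R2.EHI (lis pnt_err)

theorem card_split (m n : ℕ) (h : m ≤ n) :
    (((Ioc m n).filter Nat.Prime).card : ℝ) =
      (((Icc 1 n).filter (fun p : ℕ => p.Prime)).card : ℝ) - (((Icc 1 m).filter (fun p : ℕ => p.Prime)).card : ℝ) := by
  have h1 : (Icc 1 n).filter (fun p : ℕ => p.Prime) =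
      (Icc 1 m).filter (fun p : ℕ => p.Prime) ∪ (Ioc m n).filter Nat.Prime := by
    ext p
    simp only [mem_filter, mem_Icc, mem_union, mem_Ioc]
    constructor
    · rintro ⟨⟨h1, h2⟩, h3⟩
      rcases le_or_gt p m with h4 | h4
      · exact Or.inl ⟨⟨h1, h4⟩, h3⟩
      · exact Or.inr ⟨⟨h4, h2⟩, h3⟩
    · rintro (⟨⟨h1, h2⟩, h3⟩ | ⟨⟨h1, h2⟩, h3⟩)
      · exact ⟨⟨h1, h2.trans h⟩, h3⟩
      · exact ⟨⟨by omega, h2⟩, h3⟩
  rw [h1, card_union_of_disjoint]
  · push_cast
    ring
  · rw [Finset.disjoint_left]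
    intro p hp hp'
    have h2 := (mem_Icc.mp (mem_filter.mp hp).1).2
    have h3 := (mem_Ioc.mp (mem_filter.mp hp').1).1
    omega

theorem lis_split (m n : ℕ) (hm : 2 ≤ m) (h : m ≤ n) :
    lis n - lis m = ∑ j ∈ Ioc m n, 1 / Real.log j := by
  unfold lis
  have h1 : Icc 2 n = Icc 2 m ∪ Ioc m n := by
    ext p
    simp only [mem_Icc, mem_union, mem_Ioc]
    omega
  rw [h1, sum_union]
  · ring
  · rw [Finset.disjoint_left]
    intro p hp hp'
    have h2 := (mem_Icc.mp hp).2
    have h3 := (mem_Ioc.mp hp').1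
    omega

theorem pi_short (A : ℕ) (δ : ℝ) (hδ : 0 < δ) : ∃ N₀ : ℕ, ∀ m n : ℕ, N₀ ≤ m → m < n → n ≤ 2 * m →
    (n : ℝ) / (Real.log n) ^ A ≤ (n : ℝ) - m →
    |(((Ioc m n).filter Nat.Prime).card : ℝ) - ((n : ℝ) - m) / Real.log n| ≤
      δ * (((n : ℝ) - m) / Real.log n) := by
  obtain ⟨C₀, hC₀⟩ := pnt_err (A + 2)
  set C := max C₀ 1 with hC
  have hC1 : 1 ≤ C := le_max_right _ _
  have hCpos : 0 < C := by linarith
  have hpnt : ∀ y : ℕ, 2 ≤ y →
      |(((Icc 1 y).filter (fun p : ℕ => p.Prime)).card : ℝ) - lis y| ≤ C * y / Real.log y ^ (A + 2) := by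
    intro y hy
    refine (hC₀ y hy).trans ?_
    have h1 : 0 < Real.log (y : ℝ) := Real.log_pos (by exact_mod_cast (by omega : 1 < y))
    have h2 : C₀ ≤ C := le_max_left _ _
    gcongr
  have ev : ∀ᶠ m : ℕ in atTop, max (2 * Real.log 2 / δ + 2) (4 * 2 ^ (A + 2) * C / δ) + 2 ≤ Real.log m :=
    (Real.tendsto_log_atTop.comp tendsto_natCast_atTop_atTop).eventually_ge_atTop _
  obtain ⟨N₁, hN₁⟩ := eventually_atTop.mp ev
  refine ⟨max N₁ 3, fun m n hm hmn hn hlen => ?_⟩
  have hm1 : N₁ ≤ m := (le_max_left _ _).trans hm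
  have hm3 : 3 ≤ m := (le_max_right _ _).trans hm
  have hlm := hN₁ m hm1
  have a1 : 2 * Real.log 2 / δ + 2 ≤ Real.log m := by
    have := le_max_left (2 * Real.log 2 / δ + 2) (4 * 2 ^ (A + 2) * C / δ)
    linarith
  have a2 : 4 * 2 ^ (A + 2) * C / δ ≤ Real.log m := by
    have := le_max_right (2 * Real.log 2 / δ + 2) (4 * 2 ^ (A + 2) * C / δ)
    linarith
  have hm0 : (0 : ℝ) < m := by exact_mod_cast (by omega : 0 < m)
  have hn0 : (0 : ℝ) < n := by exact_mod_cast (by omega : 0 < n)
  have hmnR : (m : ℝ) < n := by exact_mod_cast hmn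
  have hn2 : (n : ℝ) ≤ 2 * m := by exact_mod_cast hn
  have hlog2 : 0 < Real.log 2 := Real.log_pos (by norm_num)
  have hlog2' : Real.log 2 < 1 := by
    have := Real.log_two_lt_d9; linarith
  have hd0 : 0 < 2 * Real.log 2 / δ := by positivity
  have hlm2 : 2 ≤ Real.log m := by linarith
  have hlmn : Real.log m ≤ Real.log n := Real.log_le_log hm0 hmnR.le
  have hln : 0 < Real.log n := by linarith
  have hlm0 : 0 < Real.log m := by linarith
  have hlnm : Real.log n ≤ Real.log m + Real.log 2 := by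
    rw [← Real.log_mul hm0.ne' (by norm_num)]
    exact Real.log_le_log hn0 (by linarith)
  have hhalf : Real.log n / 2 ≤ Real.log m := by linarith
  set D : ℝ := (n : ℝ) - m with hD
  have hD0 : 0 < D := by linarith
  -- the main term
  have hsum := lis_split m n (by omega) hmn.le
  have hcard : ((Ioc m n).card : ℝ) = D := by
    rw [Nat.card_Ioc, Nat.cast_sub hmn.le]
  have m1 : D / Real.log n ≤ lis n - lis m := by
    rw [hsum]
    have : ∑ j ∈ Ioc m n, 1 / Real.log n ≤ ∑ j ∈ Ioc m n, 1 / Real.log j := by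
      apply sum_le_sum
      intro j hj
      have hj1 := mem_Ioc.mp hj
      have hj0 : (1 : ℝ) < j := by exact_mod_cast (by omega : 1 < j)
      apply one_div_le_one_div_of_le (Real.log_pos hj0)
      apply Real.log_le_log (by linarith)
      exact_mod_cast hj1.2
    rw [sum_const, nsmul_eq_mul, hcard, mul_one_div] at this
    exact this
  have m2 : lis n - lis m ≤ D / Real.log m := by
    rw [hsum]
    have : ∑ j ∈ Ioc m n, 1 / Real.log j ≤ ∑ j ∈ Ioc m n, 1 / Real.log m := by
      apply sum_le_sum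
      intro j hj
      have hj1 := mem_Ioc.mp hj
      apply one_div_le_one_div_of_le hlm0
      apply Real.log_le_log hm0
      exact_mod_cast hj1.1.le
    rw [sum_const, nsmul_eq_mul, hcard, mul_one_div] at this
    exact this
  have m3 : D / Real.log m ≤ D / Real.log n + δ / 2 * (D / Real.log n) := by
    rw [div_le_iff₀ hlm0]
    have h1 : 2 * Real.log 2 / δ ≤ Real.log m := by linarith
    rw [div_le_iff₀ hδ] at h1
    have h2 : Real.log n ≤ (1 + δ / 2) * Real.log m := by nlinarith
    have h3 : (D / Real.log n + δ / 2 * (D / Real.log n)) * Real.log m =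
        D / Real.log n * ((1 + δ / 2) * Real.log m) := by ring
    rw [h3]
    calc D = D / Real.log n * Real.log n := by field_simp
      _ ≤ D / Real.log n * ((1 + δ / 2) * Real.log m) := by
        apply mul_le_mul_of_nonneg_left h2 (by positivity)
  -- the error terms
  have hp1 := hpnt n (by omega)
  have hp2 := hpnt m (by omega)
  have e1 : C * n / Real.log n ^ (A + 2) ≤ δ / 4 * (D / Real.log n) := by
    have h1 : C * n / Real.log n ^ (A + 2) = C / Real.log n * ((n / Real.log n ^ A) / Real.log n) := by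
      rw [pow_add]
      field_simp
    rw [h1]
    have h2 : C / Real.log n ≤ δ / 4 := by
      rw [div_le_iff₀ hln]
      rw [div_le_iff₀ hδ] at a2
      have : (1 : ℝ) ≤ 2 ^ (A + 2) := one_le_pow₀ (by norm_num)
      nlinarith
    have h3 : (n / Real.log n ^ A) / Real.log n ≤ D / Real.log n := by gcongr
    exact mul_le_mul h2 h3 (by positivity) (by positivity)
  have e2 : C * m / Real.log m ^ (A + 2) ≤ δ / 4 * (D / Real.log n) := by
    have h0 : C * m / Real.log m ^ (A + 2) ≤ 2 ^ (A + 2) * (C * n / Real.log n ^ (A + 2)) := by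
      have h1 : (Real.log n / 2) ^ (A + 2) ≤ Real.log m ^ (A + 2) :=
        pow_le_pow_left₀ (by positivity) hhalf _
      calc C * m / Real.log m ^ (A + 2) ≤ C * n / (Real.log n / 2) ^ (A + 2) := by
            apply div_le_div₀ (by positivity) (by nlinarith) (by positivity) h1
        _ = 2 ^ (A + 2) * (C * n / Real.log n ^ (A + 2)) := by
            rw [div_pow]
            field_simp
    refine h0.trans ?_
    have h1 : 2 ^ (A + 2) * (C * n / Real.log n ^ (A + 2)) =
        2 ^ (A + 2) * C / Real.log n * ((n / Real.log n ^ A) / Real.log n) := by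
      rw [pow_add (Real.log n)]
      field_simp
    rw [h1]
    have h2 : 2 ^ (A + 2) * C / Real.log n ≤ δ / 4 := by
      rw [div_le_iff₀ hln]
      rw [div_le_iff₀ hδ] at a2
      nlinarith
    have h3 : (n / Real.log n ^ A) / Real.log n ≤ D / Real.log n := by gcongr
    exact mul_le_mul h2 h3 (by positivity) (by positivity)
  rw [card_split m n hmn.le]
  have b1 := abs_le.mp hp1
  have b2 := abs_le.mp hp2
  rw [abs_le]
  have hDn : 0 ≤ D / Real.log n := by positivity
  constructor
  · nlinarith [b1.1, b1.2, b2.1, b2.2]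
  · nlinarith [b1.1, b1.2, b2.1, b2.2]

end Pool.Agent.Helper767_SH
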