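import Mathlib
import Pool.Agent.H295R3.Hoheisel
import Pool.Agent.Helper767_SH.Primes
import Pool.Agent.Helper767_SH.Lower
import Pool.Agent.Helper923.PPS.BT

set_option autoImplicit false

/-! The hypotheses on the primes in short intervals. -/

open Filter Finset

namespace Pool.Agent.Helper767_SH

variable {L : ℕ → ℕ}

theorem ev_log_pow (A : ℕ) : ∀ᶠ n : ℕ in atTop, (Real.log n) ^ A ≤ (n : ℝ) := by
  have h1 := (Real.isLittleO_pow_log_id_atTop (n := A)).bound (c := 1) one_pos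
  have h2 := (tendsto_natCast_atTop_atTop (R := ℝ)).eventually h1
  filter_upwards [h2, eventually_ge_atTop 1] with n hn hn1
  have h3 : 0 ≤ Real.log n := Real.log_natCast_nonneg n
  rw [one_mul, Real.norm_of_nonneg (by positivity)] at hn
  simpa using hn

theorem ev_log_ge (M : ℝ) : ∀ᶠ n : ℕ in atTop, M ≤ Real.log n :=
  (Real.tendsto_log_atTop.comp tendsto_natCast_atTop_atTop).eventually_ge_atTop _

theorem big_of_log (A : ℕ) (h : ∀ᶠ n : ℕ in atTop, (n : ℝ) / (Real.log n) ^ A ≤ L n) :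
    ∀ᶠ n : ℕ in atTop, (Real.log n) ^ 4 ≤ L n := by
  filter_upwards [h, ev_log_pow (A + 4), ev_log_ge 1] with n h1 h2 h3
  refine le_trans ?_ h1
  rw [le_div_iff₀ (by positivity), ← pow_add, add_comm]
  exact h2

/-- the length is admissible in `pi_short` -/
theorem short_ev (hL : Reg L) (A : ℕ) (h : ∀ᶠ n : ℕ in atTop, (n : ℝ) / (Real.log n) ^ A ≤ L n)
    (δ : ℝ) (hδ : 0 < δ) : ∀ᶠ n : ℕ in atTop, ∀ Y : ℕ, (1 / 2 : ℝ) * L n ≤ Y → Y ≤ 2 * L n →
      |(((Ioc (n - Y) n).filter Nat.Prime).card : ℝ) - (Y : ℝ) / Real.log n| ≤ δ * ((Y : ℝ) / Real.log n) := by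
  obtain ⟨N₀, hN₀⟩ := pi_short (A + 1) δ hδ
  filter_upwards [h, ev_log_ge 2, hL.small (1 / 4) (by norm_num), eventually_ge_atTop (2 * N₀ + 2)]
    with n h1 h2 h3 h4 Y hY1 hY2
  have hn0 : (0 : ℝ) < n := by exact_mod_cast (by omega : 0 < n)
  have hlog : 0 < Real.log n := by linarith
  have hLpos : (0 : ℝ) < L n := lt_of_lt_of_le (by positivity) h1
  have hY0 : (0 : ℝ) < Y := by linarith
  have hY2' : (Y : ℝ) ≤ 2 * L n := by exact_mod_cast hY2
  have hYn : (Y : ℝ) ≤ n / 2 := by linarith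
  have hYn' : 2 * Y ≤ n := by
    have : 2 * (Y : ℝ) ≤ n := by linarith
    exact_mod_cast this
  have hY0' : 0 < Y := by exact_mod_cast hY0
  have e : (n : ℝ) - ((n - Y : ℕ) : ℝ) = Y := by
    rw [Nat.cast_sub (by omega)]
    ring
  have key := hN₀ (n - Y) n (by omega) (by omega) (by omega) (by
    rw [e, pow_succ, ← div_div, div_le_iff₀ hlog]
    nlinarith)
  rw [e] at key
  exact key

theorem lowP_of_log (hL : Reg L) (A : ℕ)
    (h : ∀ᶠ n : ℕ in atTop, (n : ℝ) / (Real.log n) ^ A ≤ L n) : LowP L 1 := by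
  intro δ hδ
  filter_upwards [short_ev hL A h δ hδ] with n hn Y hY1 hY2
  have := (abs_le.mp (hn Y hY1 (by omega))).1
  rw [one_mul]
  linarith

theorem upP_of_log (hL : Reg L) (A : ℕ)
    (h : ∀ᶠ n : ℕ in atTop, (n : ℝ) / (Real.log n) ^ A ≤ L n) : UpP L 1 := by
  intro δ hδ
  filter_upwards [short_ev hL A h δ hδ] with n hn Y hY1 hY2
  have h1 : (L n : ℝ) ≤ Y := by exact_mod_cast hY1
  have h2 : (0 : ℝ) ≤ L n := by positivity
  have := (abs_le.mp (hn Y (by linarith) hY2)).2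
  rw [one_mul]
  linarith

theorem ev_log_pow_rpow (s : ℝ) (hs : 0 < s) : ∀ᶠ n : ℕ in atTop, (Real.log n) ^ 4 ≤ (n : ℝ) ^ s := by
  have h1 := (isLittleO_log_rpow_rpow_atTop (4 : ℕ) hs).bound (c := 1) one_pos
  have h2 := (tendsto_natCast_atTop_atTop (R := ℝ)).eventually h1
  filter_upwards [h2, eventually_ge_atTop 1] with n hn hn1
  have h3 : 0 ≤ Real.log n := Real.log_natCast_nonneg n
  rw [one_mul, Real.rpow_natCast, Real.norm_of_nonneg (by positivity),
    Real.norm_of_nonneg (by positivity)] at hn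
  exact hn

/-- the power saving: an absolute exponent and an absolute constant -/
theorem lowP_of_power : ∃ δ c : ℝ, 0 < δ ∧ δ < 1 ∧ 0 < c ∧ ∀ L : ℕ → ℕ, Reg L →
    (∀ᶠ n : ℕ in atTop, (n : ℝ) ^ (1 - δ) ≤ L n) → LowP L c := by
  obtain ⟨δ, η, hδ0, hδ1, hη, X₀, hX₀, hH⟩ := Pool.Agent.H295R3.D.hoheisel
  refine ⟨δ / 2, η, by linarith, by linarith, hη, ?_⟩
  intro L hL h δ' hδ'
  have t1 : ∀ᶠ n : ℕ in atTop, (2 : ℝ) ≤ (n : ℝ) ^ (δ / 2) :=
    ((tendsto_rpow_atTop (by linarith : 0 < δ / 2)).comp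
      (tendsto_natCast_atTop_atTop (R := ℝ))).eventually_ge_atTop _
  filter_upwards [h, ev_log_ge 1, hL.small (1 / 4) (by norm_num), eventually_ge_atTop (2 * X₀ + 2), t1]
    with n h1 h2 h3 h4 h5 Y hY1 hY2
  have hn0 : (0 : ℝ) < n := by exact_mod_cast (by omega : 0 < n)
  have hlog : 0 < Real.log n := by linarith
  have hLpos : (0 : ℝ) < L n := lt_of_lt_of_le (Real.rpow_pos_of_pos hn0 _) h1
  have hY2' : (Y : ℝ) ≤ L n := by exact_mod_cast hY2
  have hYn' : 2 * Y ≤ n := by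
    have : 2 * (Y : ℝ) ≤ n := by linarith
    exact_mod_cast this
  have hpow : (n : ℝ) ^ (1 - δ) ≤ Y := by
    have e1 : (n : ℝ) ^ (1 - δ / 2) = (n : ℝ) ^ (1 - δ) * (n : ℝ) ^ (δ / 2) := by
      rw [← Real.rpow_add hn0]
      congr 1
      ring
    have e2 : 0 < (n : ℝ) ^ (1 - δ) := Real.rpow_pos_of_pos hn0 _
    nlinarith
  have hX1 : (1 : ℝ) ≤ ((n - Y : ℕ) : ℝ) := by exact_mod_cast (by omega : 1 ≤ n - Y)
  have hXn : ((n - Y : ℕ) : ℝ) ≤ n := by exact_mod_cast (by omega : n - Y ≤ n)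
  have key := hH (n - Y) Y (by omega) (by
    refine le_trans ?_ hpow
    apply Real.rpow_le_rpow (by linarith) hXn (by linarith)) (by omega)
  have e : n - Y + Y = n := by omega
  rw [e] at key
  refine le_trans ?_ key
  have hX2 : (1 : ℝ) < ((n - Y : ℕ) : ℝ) := by exact_mod_cast (by omega : 1 < n - Y)
  have hlX : 0 < Real.log ((n - Y : ℕ) : ℝ) := Real.log_pos hX2
  have hlXn : Real.log ((n - Y : ℕ) : ℝ) ≤ Real.log n := Real.log_le_log (by linarith) hXn
  have hY0 : (0 : ℝ) ≤ Y := by positivity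
  calc η * (1 - δ') * (Y / Real.log n) ≤ η * 1 * (Y / Real.log n) := by
        gcongr
        linarith
    _ = η * Y / Real.log n := by ring
    _ ≤ η * Y / Real.log ((n - Y : ℕ) : ℝ) := by gcongr

/-- the Brun-Titchmarsh inequality gives the upper bound, with an absolute constant -/
theorem upP_of_power (δ : ℝ) (hδ0 : 0 < δ) (hδ1 : δ < 1) : ∃ C : ℝ, 1 ≤ C ∧ ∀ L : ℕ → ℕ, Reg L →
    (∀ᶠ n : ℕ in atTop, (n : ℝ) ^ (1 - δ) ≤ L n) → UpP L C := by
  classical
  obtain ⟨C₀, hC₀, hBT⟩ := Pool.Agent.Helper923.PPS.brun_titchmarsh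
  refine ⟨C₀ / (1 - δ), ?_, ?_⟩
  · rw [le_div_iff₀ (by linarith)]
    linarith
  intro L hL h δ' hδ'
  have t1 : ∀ᶠ n : ℕ in atTop, (2 : ℝ) ≤ (n : ℝ) ^ (1 - δ) :=
    ((tendsto_rpow_atTop (by linarith : 0 < 1 - δ)).comp
      (tendsto_natCast_atTop_atTop (R := ℝ))).eventually_ge_atTop _
  filter_upwards [h, ev_log_ge 1, hL.small (1 / 4) (by norm_num), eventually_ge_atTop 2, t1]
    with n h1 h2 h3 h4 h5 Y hY1 hY2
  have hn0 : (0 : ℝ) < n := by exact_mod_cast (by omega : 0 < n)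
  have hlog : 0 < Real.log n := by linarith
  have hY1' : (L n : ℝ) ≤ Y := by exact_mod_cast hY1
  have hY2R : (2 : ℝ) ≤ Y := by linarith
  have hY2' : 2 ≤ Y := by exact_mod_cast hY2R
  have hYn : Y ≤ n := by
    have e1 : (Y : ℝ) ≤ 2 * L n := by exact_mod_cast hY2
    have : (Y : ℝ) ≤ n := by linarith
    exact_mod_cast this
  have key := hBT (n - Y + 1) 1 Y hY2' (Or.inl rfl)
  have hlY : (1 - δ) * Real.log n ≤ Real.log Y := by
    rw [← Real.log_rpow hn0]
    exact Real.log_le_log (Real.rpow_pos_of_pos hn0 _) (by linarith)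
  have hlY0 : 0 < Real.log Y := lt_of_lt_of_le (mul_pos (by linarith) hlog) hlY
  have hsub : (((Ioc (n - Y) n).filter Nat.Prime).card : ℝ) ≤
      (((Finset.range Y).filter (fun k => (n - Y + 1 + k * 1).Prime)).card : ℝ) := by
    norm_cast
    apply Finset.card_le_card_of_injOn (fun m => m - (n - Y + 1))
    · intro m hm
      rw [mem_coe, mem_filter, mem_Ioc] at hm
      rw [mem_coe, mem_filter, mem_range]
      have e1 : n - Y + 1 + (m - (n - Y + 1)) * 1 = m := by omega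
      have e2 : m - (n - Y + 1) < Y := by omega
      refine ⟨e2, ?_⟩
      show Nat.Prime (n - Y + 1 + (m - (n - Y + 1)) * 1)
      rw [e1]
      exact hm.2
    · intro m hm m' hm' hmm
      rw [mem_coe, mem_filter, mem_Ioc] at hm hm'
      simp only at hmm
      omega
  refine hsub.trans (key.trans ?_)
  have hY0 : (0 : ℝ) < Y := by linarith
  have hδ'1 : 0 < 1 - δ := by linarith
  calc C₀ * Y / Real.log Y ≤ C₀ * Y / ((1 - δ) * Real.log n) := by gcongr
    _ = C₀ / (1 - δ) * (Y / Real.log n) := by field_simp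
    _ ≤ C₀ / (1 - δ) * (1 + δ') * (Y / Real.log n) := by
        have : C₀ / (1 - δ) * 1 ≤ C₀ / (1 - δ) * (1 + δ') := by
          apply mul_le_mul_of_nonneg_left (by linarith)
          apply div_nonneg (by linarith) hδ'1.le
        apply mul_le_mul_of_nonneg_right (by linarith)
        positivity

end Pool.Agent.Helper767_SH
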