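import Mathlib
import Pool.Agent.Helper767_SH.Upper

set_option autoImplicit false

/-! From dyadic intervals to the largest gap. -/

open MeasureTheory ProbabilityTheory Filter Finset

namespace Pool.Agent.Helper767_SH

variable {Ω : Type*} {X : ℕ → Ω → ℕ}

/-- The set of the shifted primes `p + X p`. -/
def shifted (X : ℕ → Ω → ℕ) (ω : Ω) : Set ℕ := {s | ∃ p : ℕ, p.Prime ∧ s = p + X p ω}

/-- `a` and `b` are consecutive elements of `S`, and `a < b`. -/
def Consecutive (S : Set ℕ) (a b : ℕ) : Prop :=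
  a ∈ S ∧ b ∈ S ∧ a < b ∧ ∀ c ∈ S, ¬ (a < c ∧ c < b)

/-- The largest difference `b - a` of consecutive elements of `S` with `a ≤ x`. -/
noncomputable def G (S : Set ℕ) (x : ℕ) : ℕ :=
  sSup {d : ℕ | ∃ a b : ℕ, Consecutive S a b ∧ a ≤ x ∧ d = b - a}

theorem exists_gt (ω : Ω) (N : ℕ) : ∃ s ∈ shifted X ω, N < s := by
  obtain ⟨p, hp, hp2⟩ := Nat.exists_infinite_primes (N + 1)
  exact ⟨p + X p ω, ⟨p, hp2, rfl⟩, by omega⟩

theorem up_det (ω : Ω) (K : ℝ) (hK : 0 < K)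
    (h : ∀ᶠ k : ℕ in atTop, ∀ a : ℕ, 2 ^ (k - 1) < a → a ≤ 2 ^ k →
      ω ∉ Emp X (Ioc a (a + len K k))) (K' : ℝ) (hK' : K < K') :
    ∀ᶠ x : ℕ in atTop, ∀ a b : ℕ, Consecutive (shifted X ω) a b → a ≤ x →
      (b : ℝ) - a ≤ K' * (Real.log x) ^ 2 := by
  obtain ⟨k₀, hk₀⟩ := eventually_atTop.mp h
  obtain ⟨s₀, hs₀, hs₀2⟩ := exists_gt (X := X) ω (2 ^ k₀)
  have hl2 : 0 < Real.log 2 := Real.log_pos (by norm_num)
  have hl2' : Real.log 2 < 1 := by have := Real.log_two_lt_d9; linarith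
  have tl : Tendsto (fun x : ℕ => Real.log (x : ℝ)) atTop atTop :=
    Real.tendsto_log_atTop.comp tendsto_natCast_atTop_atTop
  filter_upwards [tl.eventually_ge_atTop (3 * K / (K' - K) + 1 + s₀ / K'), eventually_ge_atTop 1]
    with x hx hx1 a b hab hax
  have hKK : 0 < K' - K := by linarith
  have hK'0 : 0 < K' := by linarith
  have q1 : 0 ≤ 3 * K / (K' - K) := by positivity
  have q2 : 0 ≤ (s₀ : ℝ) / K' := by positivity
  have hlx : 1 ≤ Real.log x := by linarith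
  rcases le_or_gt a (2 ^ k₀) with hcase | hcase
  · have hb : b ≤ s₀ := by
      by_contra hcon
      exact hab.2.2.2 s₀ hs₀ ⟨by omega, by omega⟩
    have e1 : (b : ℝ) - a ≤ s₀ := by
      have : (b : ℝ) ≤ s₀ := by exact_mod_cast hb
      have : (0 : ℝ) ≤ a := by positivity
      linarith
    have e2 : (s₀ : ℝ) / K' ≤ Real.log x := by linarith
    rw [div_le_iff₀ hK'0] at e2
    have e3 : Real.log x * K' ≤ K' * Real.log x ^ 2 := by nlinarith
    linarith
  · set k := Nat.clog 2 a with hk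
    have ha2 : 2 ≤ a := by
      have : 1 ≤ 2 ^ k₀ := Nat.one_le_two_pow
      omega
    have f1 : a ≤ 2 ^ k := Nat.le_pow_clog (by norm_num) a
    have f2 : 2 ^ (k - 1) < a := Nat.pow_pred_clog_lt_self (by norm_num) (by omega)
    have f3 : k₀ ≤ k := by
      by_contra hcon
      have : 2 ^ k ≤ 2 ^ k₀ := Nat.pow_le_pow_right (by norm_num) (by omega)
      omega
    have hk1 : 1 ≤ k := by
      by_contra hcon
      have : k = 0 := by omega
      rw [this] at f1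
      omega
    have hnot := hk₀ k f3 a f2 f1
    have g1 : b - a ≤ len K k := by
      by_contra hcon
      apply hnot
      intro p hp hmem
      rw [mem_Ioc] at hmem
      exact hab.2.2.2 (p + X p ω) ⟨p, hp, rfl⟩ ⟨hmem.1, by omega⟩
    have g2 : ((b : ℝ) - a) ≤ len K k := by
      have h1 : a < b := hab.2.2.1
      have : ((b - a : ℕ) : ℝ) ≤ len K k := by exact_mod_cast g1
      rwa [Nat.cast_sub h1.le] at this
    have g3 : (len K k : ℝ) ≤ K * (k * Real.log 2) ^ 2 := Nat.floor_le (by positivity)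
    have g4 : k * Real.log 2 ≤ Real.log x + Real.log 2 := by
      have e1 : ((2 : ℝ) ^ (k - 1)) ≤ x := by
        have : 2 ^ (k - 1) ≤ x := by omega
        exact_mod_cast this
      have e2 : Real.log ((2 : ℝ) ^ (k - 1)) ≤ Real.log x := Real.log_le_log (by positivity) e1
      rw [Real.log_pow] at e2
      have e3 : ((k - 1 : ℕ) : ℝ) = k - 1 := by
        rw [Nat.cast_sub hk1]; simp
      rw [e3] at e2
      linarith
    have g5 : K * (k * Real.log 2) ^ 2 ≤ K * (Real.log x + Real.log 2) ^ 2 := by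
      have : 0 ≤ (k : ℝ) * Real.log 2 := by positivity
      gcongr
    have g6 : K * (Real.log x + Real.log 2) ^ 2 ≤ K' * Real.log x ^ 2 := by
      have e1 : 3 * K / (K' - K) ≤ Real.log x := by linarith
      rw [div_le_iff₀ hKK] at e1
      have e2 : 2 * Real.log x * Real.log 2 + Real.log 2 ^ 2 ≤ 3 * Real.log x := by nlinarith
      have e3 : K * (2 * Real.log x * Real.log 2 + Real.log 2 ^ 2) ≤ K * (3 * Real.log x) :=
        mul_le_mul_of_nonneg_left e2 hK.le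
      have e4 : 3 * K * Real.log x ≤ Real.log x * (K' - K) * Real.log x :=
        mul_le_mul_of_nonneg_right e1 (by linarith)
      nlinarith
    linarith

theorem low_det (ω : Ω) (K : ℝ) (hK : 0 < K)
    (h : ∀ᶠ k : ℕ in atTop, ∃ a : ℕ, 2 ^ (k - 1) < a ∧ a + len K k ≤ 2 ^ k ∧
      ω ∈ Emp X (Ioc a (a + len K k))) (K' : ℝ) (hK0' : 0 < K') (hK' : K' < K) :
    ∀ᶠ x : ℕ in atTop, ∃ a b : ℕ, Consecutive (shifted X ω) a b ∧ a ≤ x ∧
      K' * (Real.log x) ^ 2 ≤ (b : ℝ) - a := by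
  classical
  obtain ⟨k₀, hk₀⟩ := eventually_atTop.mp h
  have hl2 : 0 < Real.log 2 := Real.log_pos (by norm_num)
  have hl2' : Real.log 2 < 1 := by have := Real.log_two_lt_d9; linarith
  have tl : Tendsto (fun x : ℕ => Real.log (x : ℝ)) atTop atTop :=
    Real.tendsto_log_atTop.comp tendsto_natCast_atTop_atTop
  filter_upwards [tl.eventually_ge_atTop (2 * K / (K - K') + 1),
    eventually_ge_atTop (2 ^ (k₀ + (2 + X 2 ω) + 1))]
    with x hx hx1
  have hKK : 0 < K - K' := by linarith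
  have q1 : 0 ≤ 2 * K / (K - K') := by positivity
  have hx0 : x ≠ 0 := by
    have : 0 < 2 ^ (k₀ + (2 + X 2 ω) + 1) := by positivity
    omega
  set k := Nat.log 2 x with hk
  have f1 : 2 ^ k ≤ x := Nat.pow_log_le_self 2 hx0
  have f2 : x < 2 ^ (k + 1) := Nat.lt_pow_succ_log_self (by norm_num) x
  have f3 : k₀ + (2 + X 2 ω) + 1 ≤ k := Nat.le_log_of_pow_le (by norm_num) hx1
  obtain ⟨a₀, ha1, ha2, ha3⟩ := hk₀ k (by omega)
  have h2S : (2 + X 2 ω) ∈ shifted X ω := ⟨2, Nat.prime_two, rfl⟩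
  have h2a : 2 + X 2 ω ≤ a₀ := by
    have e1 : 2 + X 2 ω < 2 ^ (2 + X 2 ω) := Nat.lt_two_pow_self
    have e2 : 2 ^ (2 + X 2 ω) ≤ 2 ^ (k - 1) := Nat.pow_le_pow_right (by norm_num) (by omega)
    omega
  set a := Nat.findGreatest (fun s => s ∈ shifted X ω) a₀ with ha
  have haS : a ∈ shifted X ω := Nat.findGreatest_spec (P := fun s => s ∈ shifted X ω) h2a h2S
  have haa : a ≤ a₀ := Nat.findGreatest_le _
  obtain ⟨hb1, hb2⟩ := Nat.find_spec (exists_gt (X := X) ω (a₀ + len K k))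
  set b := Nat.find (exists_gt (X := X) ω (a₀ + len K k)) with hb
  refine ⟨a, b, ⟨haS, hb1, by omega, ?_⟩, by omega, ?_⟩
  · rintro c hc ⟨hc1, hc2⟩
    rcases le_or_gt c a₀ with h1 | h1
    · exact Nat.findGreatest_is_greatest hc1 h1 hc
    · rcases le_or_gt c (a₀ + len K k) with h3 | h3
      · obtain ⟨p, hp, rfl⟩ := hc
        exact ha3 p hp (mem_Ioc.mpr ⟨h1, h3⟩)
      · exact Nat.find_min (exists_gt (X := X) ω (a₀ + len K k)) hc2 ⟨hc, h3⟩
  · have g1 : ((len K k : ℕ) : ℝ) + 1 ≤ (b : ℝ) - a := by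
      have : len K k + 1 + a ≤ b := by omega
      have : ((len K k : ℕ) : ℝ) + 1 + a ≤ b := by exact_mod_cast this
      linarith
    have g2 : K * (k * Real.log 2) ^ 2 ≤ (len K k : ℝ) + 1 := (Nat.lt_floor_add_one _).le
    have g3 : Real.log x - Real.log 2 ≤ k * Real.log 2 := by
      have hx0R : (0 : ℝ) < x := by exact_mod_cast Nat.pos_of_ne_zero hx0
      have e1 : (x : ℝ) ≤ (2 : ℝ) ^ (k + 1) := by exact_mod_cast f2.le
      have e2 : Real.log x ≤ Real.log ((2 : ℝ) ^ (k + 1)) := Real.log_le_log hx0R e1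
      rw [Real.log_pow] at e2
      push_cast at e2
      linarith
    have g4 : K * (Real.log x - Real.log 2) ^ 2 ≤ K * (k * Real.log 2) ^ 2 := by
      have : 0 ≤ Real.log x - Real.log 2 := by linarith
      gcongr
    have g5 : K' * Real.log x ^ 2 ≤ K * (Real.log x - Real.log 2) ^ 2 := by
      have e1 : 2 * K / (K - K') ≤ Real.log x := by linarith
      rw [div_le_iff₀ hKK] at e1
      have e4 : 2 * K * Real.log x ≤ Real.log x * (K - K') * Real.log x :=
        mul_le_mul_of_nonneg_right e1 (by linarith)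
      have e2 : 2 * K * Real.log x * Real.log 2 ≤ 2 * K * Real.log x := by
        have : 0 ≤ 2 * K * Real.log x := by
          apply mul_nonneg (by positivity) (by linarith)
        nlinarith
      have e3 : 0 ≤ K * Real.log 2 ^ 2 := by positivity
      nlinarith
    linarith

theorem G_le (S : Set ℕ) (x : ℕ) (M : ℝ) (hne : ∃ a b : ℕ, Consecutive S a b ∧ a ≤ x)
    (h : ∀ a b : ℕ, Consecutive S a b → a ≤ x → (b : ℝ) - a ≤ M) : (G S x : ℝ) ≤ M := by
  have hbdd : BddAbove {d : ℕ | ∃ a b : ℕ, Consecutive S a b ∧ a ≤ x ∧ d = b - a} := by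
    refine ⟨⌊M⌋₊, ?_⟩
    rintro d ⟨a, b, h1, h2, rfl⟩
    apply Nat.le_floor
    rw [Nat.cast_sub h1.2.2.1.le]
    exact h a b h1 h2
  have hne' : {d : ℕ | ∃ a b : ℕ, Consecutive S a b ∧ a ≤ x ∧ d = b - a}.Nonempty := by
    obtain ⟨a, b, h1, h2⟩ := hne
    exact ⟨b - a, a, b, h1, h2, rfl⟩
  obtain ⟨a, b, h1, h2, h3⟩ := Nat.sSup_mem hne' hbdd
  have : (G S x : ℝ) = (b : ℝ) - a := by
    unfold G
    rw [h3, Nat.cast_sub h1.2.2.1.le]
  rw [this]
  exact h a b h1 h2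

theorem le_G (S : Set ℕ) (x : ℕ) (M m : ℝ)
    (h : ∀ a b : ℕ, Consecutive S a b → a ≤ x → (b : ℝ) - a ≤ M)
    (h2 : ∃ a b : ℕ, Consecutive S a b ∧ a ≤ x ∧ m ≤ (b : ℝ) - a) : m ≤ (G S x : ℝ) := by
  have hbdd : BddAbove {d : ℕ | ∃ a b : ℕ, Consecutive S a b ∧ a ≤ x ∧ d = b - a} := by
    refine ⟨⌊M⌋₊, ?_⟩
    rintro d ⟨a, b, h1, h2, rfl⟩
    apply Nat.le_floor
    rw [Nat.cast_sub h1.2.2.1.le]
    exact h a b h1 h2
  obtain ⟨a, b, h1, h3, h4⟩ := h2
  have : b - a ≤ G S x := le_csSup hbdd ⟨a, b, h1, h3, rfl⟩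
  have h5 : ((b - a : ℕ) : ℝ) ≤ G S x := by exact_mod_cast this
  rw [Nat.cast_sub h1.2.2.1.le] at h5
  linarith

end Pool.Agent.Helper767_SH
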