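import Mathlib
import Pool.Agent.Helper767_SH.Cond
import Pool.Agent.Helper767_SH.Det

set_option autoImplicit false

/-! The largest gap of the randomly shifted primes. -/

open MeasureTheory ProbabilityTheory Filter Finset

namespace Pool.Agent.Helper767_SH

variable {Ω : Type*} [MeasurableSpace Ω] {μ : Measure Ω} [IsProbabilityMeasure μ]
  {X : ℕ → Ω → ℕ} {L : ℕ → ℕ}

theorem ev_log_pos : ∀ᶠ x : ℕ in atTop, 0 < (Real.log x) ^ 2 := by
  filter_upwards [ev_log_ge 1] with x hx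
  positivity

theorem final_log (hX : ∀ n, Measurable (X n)) (hi : iIndepFun X μ) (hu : Unif μ X L) (hL : Reg L)
    (A : ℕ) (h : ∀ᶠ n : ℕ in atTop, (n : ℝ) / (Real.log n) ^ A ≤ L n) :
    ∀ᵐ ω ∂μ, Tendsto (fun x : ℕ => (G (shifted X ω) x : ℝ) / (Real.log x) ^ 2) atTop (nhds 1) := by
  have hbig := big_of_log A h
  have hlow := lowP_of_log hL A h
  have hup := upP_of_log hL A h
  have E1 : ∀ᵐ ω ∂μ, ∀ j : ℕ, ∀ᶠ k : ℕ in atTop, ∀ a : ℕ, 2 ^ (k - 1) < a → a ≤ 2 ^ k →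
      ω ∉ Emp X (Ioc a (a + len (1 + 1 / ((j : ℝ) + 1)) k)) := by
    rw [ae_all_iff]
    intro j
    have : (0 : ℝ) < 1 / ((j : ℝ) + 1) := by positivity
    exact up_as hX hi hu hL hbig 1 one_pos hlow (1 + 1 / ((j : ℝ) + 1)) (by linarith) (by linarith)
  have E2 : ∀ᵐ ω ∂μ, ∀ j : ℕ, ∀ᶠ k : ℕ in atTop, ∃ a : ℕ, 2 ^ (k - 1) < a ∧
      a + len (1 - 1 / ((j : ℝ) + 2)) k ≤ 2 ^ k ∧
      ω ∈ Emp X (Ioc a (a + len (1 - 1 / ((j : ℝ) + 2)) k)) := by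
    rw [ae_all_iff]
    intro j
    have h0 : (0 : ℝ) < 1 / ((j : ℝ) + 2) := by positivity
    have h1 : 1 / ((j : ℝ) + 2) ≤ 1 / 2 := by
      apply one_div_le_one_div_of_le (by norm_num)
      have : (0 : ℝ) ≤ j := by positivity
      linarith
    exact low_as hX hi hu hL hbig 1 le_rfl hup (1 - 1 / ((j : ℝ) + 2)) (by linarith) (by linarith)
  filter_upwards [E1, E2] with ω h1 h2
  have U : ∀ K' : ℝ, 1 < K' → ∀ᶠ x : ℕ in atTop, ∀ a b : ℕ, Consecutive (shifted X ω) a b → a ≤ x →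
      (b : ℝ) - a ≤ K' * (Real.log x) ^ 2 := by
    intro K' hK'
    obtain ⟨j, hj⟩ := exists_nat_one_div_lt (show (0 : ℝ) < K' - 1 by linarith)
    have h0 : (0 : ℝ) < 1 / ((j : ℝ) + 1) := by positivity
    exact up_det ω (1 + 1 / ((j : ℝ) + 1)) (by linarith) (h1 j) K' (by linarith)
  have D : ∀ K' : ℝ, 0 < K' → K' < 1 → ∀ᶠ x : ℕ in atTop, ∃ a b : ℕ,
      Consecutive (shifted X ω) a b ∧ a ≤ x ∧ K' * (Real.log x) ^ 2 ≤ (b : ℝ) - a := by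
    intro K' hK0' hK'
    obtain ⟨j, hj⟩ := exists_nat_one_div_lt (show (0 : ℝ) < 1 - K' by linarith)
    have h0 : 1 / ((j : ℝ) + 2) ≤ 1 / ((j : ℝ) + 1) := by
      apply one_div_le_one_div_of_le (by positivity)
      linarith
    exact low_det ω (1 - 1 / ((j : ℝ) + 2)) (by linarith) (h2 j) K' hK0' (by linarith)
  rw [tendsto_order]
  constructor
  · intro s hs
    set K' : ℝ := (1 + max s (1 / 2)) / 2 with hK'
    have e1 : max s (1 / 2) < 1 := max_lt hs (by norm_num)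
    have e2 : (1 / 2 : ℝ) ≤ max s (1 / 2) := le_max_right _ _
    have e3 : s ≤ max s (1 / 2) := le_max_left _ _
    filter_upwards [U 2 (by norm_num), D K' (by linarith) (by linarith), ev_log_pos] with x hx1 hx2 hx3
    have := le_G (shifted X ω) x _ _ hx1 hx2
    rw [lt_div_iff₀ hx3]
    refine lt_of_lt_of_le ?_ this
    exact mul_lt_mul_of_pos_right (by linarith) hx3
  · intro s hs
    filter_upwards [U ((1 + s) / 2) (by linarith), D (1 / 2) (by norm_num) (by norm_num), ev_log_pos]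
      with x hx1 hx2 hx3
    obtain ⟨a, b, q1, q2, -⟩ := hx2
    have := G_le (shifted X ω) x _ ⟨a, b, q1, q2⟩ hx1
    rw [div_lt_iff₀ hx3]
    refine lt_of_le_of_lt this ?_
    exact mul_lt_mul_of_pos_right (by linarith) hx3

theorem final_power : ∃ δ c C : ℝ, 0 < δ ∧ δ < 1 ∧ 0 < c ∧ 0 < C ∧
    ∀ (Ω : Type) (_ : MeasurableSpace Ω) (μ : Measure Ω) (_ : IsProbabilityMeasure μ)
      (X : ℕ → Ω → ℕ) (L : ℕ → ℕ), (∀ n, Measurable (X n)) → iIndepFun X μ → Unif μ X L → Reg L →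
      (∀ᶠ n : ℕ in atTop, (n : ℝ) ^ (1 - δ) ≤ L n) →
      ∀ᵐ ω ∂μ, ∀ᶠ x : ℕ in atTop, c * (Real.log x) ^ 2 ≤ (G (shifted X ω) x : ℝ) ∧
        (G (shifted X ω) x : ℝ) ≤ C * (Real.log x) ^ 2 := by
  obtain ⟨δ, c₀, hδ0, hδ1, hc₀, hlow⟩ := lowP_of_power
  obtain ⟨C₀, hC₀, hup⟩ := upP_of_power δ hδ0 hδ1
  have hC₀' : 0 < C₀ := by linarith
  refine ⟨δ, 1 / (4 * C₀), 3 / c₀, hδ0, hδ1, by positivity, by positivity, ?_⟩
  intro Ω _ μ _ X L hX hi hu hL h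
  have hbig : ∀ᶠ n : ℕ in atTop, (Real.log n) ^ 4 ≤ L n := by
    filter_upwards [h, ev_log_pow_rpow (1 - δ) (by linarith)] with n h1 h2
    exact h2.trans h1
  have E1 := up_as hX hi hu hL hbig c₀ hc₀ (hlow L hL h) (2 / c₀) (by positivity) (by
    rw [mul_div_cancel₀ _ hc₀.ne']
    norm_num)
  have E2 := low_as hX hi hu hL hbig C₀ hC₀ (hup L hL h) (1 / (2 * C₀)) (by positivity) (by
    rw [mul_one_div, mul_comm 2 C₀, ← div_div, div_self hC₀'.ne']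
    norm_num)
  filter_upwards [E1, E2] with ω h1 h2
  have U := up_det ω (2 / c₀) (by positivity) h1 (3 / c₀) (by gcongr; norm_num)
  have D := low_det ω (1 / (2 * C₀)) (by positivity) h2 (1 / (4 * C₀)) (by positivity) (by
    apply one_div_lt_one_div_of_lt (by positivity)
    linarith)
  filter_upwards [U, D] with x hx1 hx2
  refine ⟨le_G (shifted X ω) x _ _ hx1 hx2, ?_⟩
  obtain ⟨a, b, q1, q2, -⟩ := hx2
  exact G_le (shifted X ω) x _ ⟨a, b, q1, q2⟩ hx1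

theorem reg_power (θ : ℝ) (hθ0 : 0 < θ) (hθ1 : θ < 1) : Reg (fun n : ℕ => ⌊(n : ℝ) ^ θ⌋₊) := by
  refine ⟨?_, ?_, ?_⟩
  · intro m n hmn
    apply Nat.floor_le_floor
    apply Real.rpow_le_rpow (by positivity) (by exact_mod_cast hmn) hθ0.le
  · intro δ hδ
    have t1 : ∀ᶠ n : ℕ in atTop, 1 / δ ≤ (n : ℝ) ^ (1 - θ) :=
      ((tendsto_rpow_atTop (by linarith : 0 < 1 - θ)).comp
        (tendsto_natCast_atTop_atTop (R := ℝ))).eventually_ge_atTop _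
    filter_upwards [t1, eventually_ge_atTop 1] with n h1 h2
    have hn0 : (0 : ℝ) < n := by exact_mod_cast h2
    have e1 : (n : ℝ) = (n : ℝ) ^ θ * (n : ℝ) ^ (1 - θ) := by
      rw [← Real.rpow_add hn0]
      simp
    have e2 : 0 < (n : ℝ) ^ θ := Real.rpow_pos_of_pos hn0 _
    rw [div_le_iff₀ hδ] at h1
    calc ((⌊(n : ℝ) ^ θ⌋₊ : ℕ) : ℝ) ≤ (n : ℝ) ^ θ := Nat.floor_le e2.le
      _ = (n : ℝ) ^ θ * 1 := by ring
      _ ≤ (n : ℝ) ^ θ * ((n : ℝ) ^ (1 - θ) * δ) := by gcongr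
      _ = δ * ((n : ℝ) ^ θ * (n : ℝ) ^ (1 - θ)) := by ring
      _ = δ * n := by rw [← e1]
  · intro δ hδ
    set η : ℝ := min (δ / 2) (1 / 2) with hη
    have hη0 : 0 < η := by positivity
    have hη1 : η ≤ δ / 2 := min_le_left _ _
    have hη2 : η ≤ 1 / 2 := min_le_right _ _
    refine ⟨η, hη0, ?_⟩
    have t1 : ∀ᶠ n : ℕ in atTop, 2 / δ ≤ (n : ℝ) ^ θ :=
      ((tendsto_rpow_atTop hθ0).comp
        (tendsto_natCast_atTop_atTop (R := ℝ))).eventually_ge_atTop _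
    filter_upwards [t1, eventually_ge_atTop 1] with n h1 h2 m hm
    rcases le_or_gt 1 δ with hd | hd
    · have : (0 : ℝ) ≤ ((⌊(n : ℝ) ^ θ⌋₊ : ℕ) : ℝ) := by positivity
      have h3 : (0 : ℝ) ≤ ((⌊(m : ℝ) ^ θ⌋₊ : ℕ) : ℝ) := by positivity
      nlinarith
    · have hn0 : (0 : ℝ) < n := by exact_mod_cast h2
      have e2 : 0 < (n : ℝ) ^ θ := Real.rpow_pos_of_pos hn0 _
      rw [div_le_iff₀ hδ] at h1
      have e3 : (1 - η) * (n : ℝ) ^ θ ≤ (m : ℝ) ^ θ := by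
        calc (1 - η) * (n : ℝ) ^ θ ≤ (1 - η) ^ θ * (n : ℝ) ^ θ := by
              gcongr
              apply Real.self_le_rpow_of_le_one (by linarith) (by linarith) hθ1.le
          _ = ((1 - η) * n) ^ θ := by rw [Real.mul_rpow (by linarith) hn0.le]
          _ ≤ (m : ℝ) ^ θ := by
              apply Real.rpow_le_rpow _ hm hθ0.le
              apply mul_nonneg (by linarith) hn0.le
      have e4 : (m : ℝ) ^ θ < ((⌊(m : ℝ) ^ θ⌋₊ : ℕ) : ℝ) + 1 := Nat.lt_floor_add_one _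
      have e5 : ((⌊(n : ℝ) ^ θ⌋₊ : ℕ) : ℝ) ≤ (n : ℝ) ^ θ := Nat.floor_le e2.le
      have e6 : (1 - δ) * ((⌊(n : ℝ) ^ θ⌋₊ : ℕ) : ℝ) ≤ (1 - δ) * (n : ℝ) ^ θ :=
        mul_le_mul_of_nonneg_left e5 (by linarith)
      have e7 : (1 - δ) * (n : ℝ) ^ θ + 1 ≤ (1 - η) * (n : ℝ) ^ θ := by
        nlinarith
      show (1 - δ) * ((⌊(n : ℝ) ^ θ⌋₊ : ℕ) : ℝ) ≤ ((⌊(m : ℝ) ^ θ⌋₊ : ℕ) : ℝ)
      linarith

end Pool.Agent.Helper767_SH
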